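import Pool.Agent.Lib.MP_f9c34c_al.Defs

-- part Pool.Agent.Lib.MP_f9c34c_al.Alg
section

open Submodule Finset

attribute [local instance 100] LieRing.ofAssociativeRing

namespace Pool.Agent.Lib.MP_f9c34c_al

section Len
variable {ι κ M M' : Type*} [LieRing M] [LieAlgebra ℚ M] [LieRing M'] [LieAlgebra ℚ M']
  {x : ι → M}

lemma len_zero (i : ι) : x i ∈ len x 0 := subset_span ⟨i, rfl⟩

lemma len_succ (i : ι) {n : ℕ} {y : M} (hy : y ∈ len x n) : ⁅x i, y⁆ ∈ len x (n + 1) :=
  subset_span ⟨i, y, hy, rfl⟩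

lemma len_le0 {S : Submodule ℚ M} (h : ∀ i, x i ∈ S) : len x 0 ≤ S :=
  span_le.2 (by rintro _ ⟨i, rfl⟩; exact h i)

lemma len_le {S : Submodule ℚ M} {n : ℕ} (h : ∀ i, ∀ y ∈ len x n, ⁅x i, y⁆ ∈ S) :
    len x (n + 1) ≤ S :=
  span_le.2 (by rintro _ ⟨i, y, hy, rfl⟩; exact h i y hy)

lemma lie_len : ∀ (m n : ℕ) {y z : M}, y ∈ len x m → z ∈ len x n → ⁅y, z⁆ ∈ len x (n + m + 1)
  | 0, n, y, z, hy, hz =>
    len_le0 (S := (len x (n + 1)).comap ((LieModule.toEnd ℚ M M).toLinearMap.flip z))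
      (fun i => len_succ i hz) hy
  | m + 1, n, y, z, hy, hz => by
    refine len_le (S := (len x (n + (m + 1) + 1)).comap
      ((LieModule.toEnd ℚ M M).toLinearMap.flip z)) (fun i y hy => ?_) hy
    change ⁅⁅x i, y⁆, z⁆ ∈ len x (n + (m + 1) + 1)
    rw [lie_lie]
    refine sub_mem (len_succ i (lie_len m n hy hz)) ?_
    have := lie_len m (n + 1) hy (len_succ i hz)
    rwa [show n + 1 + m + 1 = n + (m + 1) + 1 by ring] at this

lemma map_len {φ : M →ₗ[ℚ] M'} (hφ : ∀ a b, φ ⁅a, b⁆ = ⁅φ a, φ b⁆) {y : κ → M'}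
    (h : ∀ i, φ (x i) ∈ len y 0) : ∀ (n : ℕ) {z : M}, z ∈ len x n → φ z ∈ len y n
  | 0, _, hz => len_le0 (S := (len y 0).comap φ) h hz
  | n + 1, _, hz => len_le (S := (len y (n + 1)).comap φ) (fun i z hz => by
      rw [mem_comap, hφ]
      exact lie_len 0 n (h i) (map_len hφ h n hz)) hz

lemma len_map (φ : M →ₗ⁅ℚ⁆ M') : ∀ n : ℕ, len (fun i => φ (x i)) n ≤ (len x n).map φ.toLinearMap
  | 0 => len_le0 fun i => ⟨x i, len_zero i, rfl⟩
  | n + 1 => len_le fun i y hy => by
      obtain ⟨z, hz, rfl⟩ := len_map φ n hy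
      exact ⟨⁅x i, z⁆, len_succ i hz, φ.map_lie _ _⟩

lemma der_len {D : M →ₗ[ℚ] M} (hD : ∀ a b, D ⁅a, b⁆ = ⁅D a, b⁆ + ⁅a, D b⁆) {m : ℕ}
    (h : ∀ i, D (x i) ∈ len x m) : ∀ (n : ℕ) {z : M}, z ∈ len x n → D z ∈ len x (n + m)
  | 0, _, hz => len_le0 (S := (len x (0 + m)).comap D) (by simpa using h) hz
  | n + 1, _, hz => len_le (S := (len x (n + 1 + m)).comap D) (fun i z hz => by
      rw [mem_comap, hD, show n + 1 + m = n + m + 1 by ring]
      exact add_mem (lie_len m n (h i) hz) (len_succ i (der_len hD h n hz))) hz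

lemma free_ind (S : LieSubalgebra ℚ (FreeLieAlgebra ℚ ι)) (h : ∀ i, FreeLieAlgebra.of ℚ i ∈ S)
    (z : FreeLieAlgebra ℚ ι) : z ∈ S := by
  have : S.incl.comp (FreeLieAlgebra.lift ℚ fun i => (⟨_, h i⟩ : S)) = LieHom.id :=
    FreeLieAlgebra.hom_ext fun i => by simp
  rw [← show S.incl (FreeLieAlgebra.lift ℚ (fun i => (⟨_, h i⟩ : S)) z) = z from
    LieHom.congr_fun this z]
  exact Subtype.prop _

lemma free_hom (S : Submodule ℚ (FreeLieAlgebra ℚ ι))
    (h : ∀ n, len (FreeLieAlgebra.of ℚ) n ≤ S) (z : FreeLieAlgebra ℚ ι) : z ∈ S := by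
  refine iSup_le h (free_ind (ι := ι) ⟨⨆ n, len (FreeLieAlgebra.of ℚ) n, fun {a b} ha hb => ?_⟩
    (fun i => mem_iSup_of_mem 0 (len_zero i)) z)
  refine (iSup_le fun m a ha => ?_ : _ ≤ (⨆ n, len (FreeLieAlgebra.of ℚ) n).comap
    ((LieModule.toEnd ℚ _ _).toLinearMap.flip b)) ha
  refine (iSup_le fun n b hb => ?_ : _ ≤ (⨆ n, len (FreeLieAlgebra.of ℚ) n).comap
    (LieModule.toEnd ℚ _ _ a)) hb
  exact mem_iSup_of_mem _ (lie_len m n ha hb)

end Len

/-- The free associative algebra. -/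
abbrev T (X : Type) : Type := MonoidAlgebra ℚ (FreeMonoid X)

variable {X : Type} {M : Type*} [AddCommGroup M] [Module ℚ M]

/-- A word. -/
noncomputable def wd (w : List X) : T X := MonoidAlgebra.single (FreeMonoid.ofList w) 1

/-- A letter. -/
noncomputable def gx (x : X) : T X := wd [x]

lemma wd_nil : wd ([] : List X) = 1 := rfl

lemma wd_append (u v : List X) : wd (u ++ v) = wd u * wd v := by
  simp [wd, MonoidAlgebra.single_mul_single, FreeMonoid.ofList_append]

lemma wd_cons (x : X) (w : List X) : wd (x :: w) = gx x * wd w := wd_append [x] w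

/-- The linear map with given values on words. -/
noncomputable def lin (f : List X → M) : T X →ₗ[ℚ] M :=
  (MonoidAlgebra.basis (FreeMonoid X) ℚ).constr ℚ fun w => f w.toList

@[simp] lemma lin_wd (f : List X → M) (w : List X) : lin f (wd w) = f w :=
  (MonoidAlgebra.basis (FreeMonoid X) ℚ).constr_basis ℚ _ (FreeMonoid.ofList w)

lemma T_ext {f g : T X →ₗ[ℚ] M} (h : ∀ w, f (wd w) = g (wd w)) : f = g :=
  (MonoidAlgebra.basis (FreeMonoid X) ℚ).ext fun w => h w.toList

lemma T_ext' {f g : T X →ₗ[ℚ] M} (h : ∀ w, f (wd w) = g (wd w)) (s : T X) : f s = g s :=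
  LinearMap.congr_fun (T_ext h) s

lemma T_mem {S : Submodule ℚ M} {f : T X →ₗ[ℚ] M} (h : ∀ w, f (wd w) ∈ S) (s : T X) :
    f s ∈ S := by
  have := T_ext' (f := S.mkQ ∘ₗ f) (g := 0) (fun w => (Quotient.mk_eq_zero S).2 (h w)) s
  exact (Quotient.mk_eq_zero S).1 this

/-- Homogeneous elements. -/
noncomputable def Hom (X : Type) (p : ℕ) : Submodule ℚ (T X) :=
  span ℚ {s | ∃ w : List X, w.length = p ∧ s = wd w}

lemma wd_mem {w : List X} {p : ℕ} (h : w.length = p) : wd w ∈ Hom X p := subset_span ⟨w, h, rfl⟩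

lemma gx_mem (x : X) : gx x ∈ Hom X 1 := wd_mem rfl

lemma Hom_mem {S : Submodule ℚ M} {f : T X →ₗ[ℚ] M} {p : ℕ}
    (h : ∀ w : List X, w.length = p → f (wd w) ∈ S) {s : T X} (hs : s ∈ Hom X p) : f s ∈ S :=
  (span_le.2 (by rintro _ ⟨w, hw, rfl⟩; exact h w hw) : Hom X p ≤ S.comap f) hs

lemma Hom_ext {f g : T X →ₗ[ℚ] M} {p : ℕ}
    (h : ∀ w : List X, w.length = p → f (wd w) = g (wd w)) {s : T X} (hs : s ∈ Hom X p) :
    f s = g s :=
  sub_eq_zero.1 (Hom_mem (S := ⊥) (f := f - g) (fun w hw => sub_eq_zero.2 (h w hw)) hs)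

lemma Hom_mul {p q : ℕ} {s t : T X} (hs : s ∈ Hom X p) (ht : t ∈ Hom X q) :
    s * t ∈ Hom X (p + q) :=
  Hom_mem (f := LinearMap.mulRight ℚ t) (fun u hu => Hom_mem (f := LinearMap.mulLeft ℚ (wd u))
    (fun v hv => by
      rw [LinearMap.mulLeft_apply, ← wd_append]
      exact wd_mem (by simp [hu, hv])) ht) hs

lemma len_Hom : ∀ (n : ℕ) {z : T X}, z ∈ len gx n → z ∈ Hom X (n + 1)
  | 0, _, hz => len_le0 gx_mem hz
  | n + 1, _, hz => len_le (fun i y hy => sub_mem
      (by simpa [add_comm] using Hom_mul (gx_mem i) (len_Hom n hy))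
      (Hom_mul (len_Hom n hy) (gx_mem i))) hz

/-- The span of the commutators. -/
noncomputable def Cm (X : Type) : Submodule ℚ (T X) := span ℚ {s | ∃ a b, s = a * b - b * a}

lemma cm_mem (a b : T X) : a * b - b * a ∈ Cm X := subset_span ⟨a, b, rfl⟩

lemma Cm_mem {S : Submodule ℚ M} {f : T X →ₗ[ℚ] M} (h : ∀ a b, f (a * b - b * a) ∈ S) {s : T X}
    (hs : s ∈ Cm X) : f s ∈ S :=
  (span_le.2 (by rintro _ ⟨a, b, rfl⟩; exact h a b) : Cm X ≤ S.comap f) hs

/-- Derivations of the free associative algebra. -/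
def IsDer (D : Module.End ℚ (T X)) : Prop := ∀ s t, D (s * t) = D s * t + s * D t

/-- The value on a word of the derivation with given values on letters. -/
noncomputable def derL (f : X → T X) : List X → T X
  | [] => 0
  | x :: w => f x * wd w + gx x * derL f w

/-- The derivation with given values on letters. -/
noncomputable def der (f : X → T X) : Module.End ℚ (T X) := lin (derL f)

lemma derL_append (f : X → T X) (u v : List X) :
    derL f (u ++ v) = derL f u * wd v + wd u * derL f v := by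
  induction u with
  | nil => simp [derL, wd_nil]
  | cons x u ih => simp only [List.cons_append, derL, ih, wd_append, wd_cons]; noncomm_ring

lemma isDer_der (f : X → T X) : IsDer (der f) := fun s t =>
  T_ext' (f := der f ∘ₗ LinearMap.mulRight ℚ t)
    (g := LinearMap.mulRight ℚ t ∘ₗ der f + LinearMap.mulRight ℚ (der f t)) (fun u =>
    T_ext' (f := der f ∘ₗ LinearMap.mulLeft ℚ (wd u))
      (g := LinearMap.mulLeft ℚ (der f (wd u)) + LinearMap.mulLeft ℚ (wd u) ∘ₗ der f)
      (fun v => by simp [← wd_append, der, derL_append]) t) s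

@[simp] lemma der_gx (f : X → T X) (x : X) : der f (gx x) = f x := by
  simp [der, gx, derL, wd_nil]

namespace IsDer
variable {D D' : Module.End ℚ (T X)}

lemma one (h : IsDer D) : D 1 = 0 := by simpa using h 1 1

lemma ext (h : IsDer D) (h' : IsDer D') (e : ∀ x, D (gx x) = D' (gx x)) : D = D' :=
  T_ext fun w => by
    induction w with
    | nil => rw [wd_nil, h.one, h'.one]
    | cons x w ih => rw [wd_cons, h, h', ih, e]

lemma add (h : IsDer D) (h' : IsDer D') : IsDer (D + D') := fun s t => by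
  simp only [LinearMap.add_apply, h s t, h' s t]; noncomm_ring

lemma smul (h : IsDer D) (c : ℚ) : IsDer (c • D) := fun s t => by
  simp only [LinearMap.smul_apply, h s t, smul_add, smul_mul_assoc, mul_smul_comm]

lemma zero : IsDer (0 : Module.End ℚ (T X)) := fun s t => by simp

lemma lie (h : IsDer D) (h' : IsDer D') : IsDer ⁅D, D'⁆ := fun s t => by
  simp only [Ring.lie_def, LinearMap.sub_apply, Module.End.mul_apply, h' s t, h s t, map_add, h _ _,
    h' _ _]
  noncomm_ring

lemma br (h : IsDer D) (a b : T X) : D ⁅a, b⁆ = ⁅D a, b⁆ + ⁅a, D b⁆ := by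
  simp only [Ring.lie_def, map_sub, h a b, h b a]; abel

lemma cm (h : IsDer D) {s : T X} (hs : s ∈ Cm X) : D s ∈ Cm X :=
  Cm_mem (fun a b => by
    have := add_mem (cm_mem (D a) b) (cm_mem a (D b))
    rwa [← Ring.lie_def, h.br]) hs

lemma hom (h : IsDer D) {m : ℕ} (hm : ∀ x, D (gx x) ∈ Hom X (m + 1)) {p : ℕ} {s : T X}
    (hs : s ∈ Hom X p) : D s ∈ Hom X (p + m) := by
  refine Hom_mem (fun w hw => ?_) hs
  subst hw
  clear hs
  induction w with
  | nil => rw [wd_nil, h.one]; exact zero_mem _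
  | cons x w ih =>
    rw [wd_cons, h]
    refine add_mem ?_ ?_
    · have := Hom_mul (hm x) (wd_mem (w := w) rfl)
      rwa [show m + 1 + w.length = (x :: w).length + m by simp; ring] at this
    · have := Hom_mul (gx_mem x) ih
      rwa [show 1 + (w.length + m) = (x :: w).length + m by simp; ring] at this

end IsDer

lemma der_inner (z s : T X) : der (fun x => ⁅z, gx x⁆) s ∈ Cm X := by
  have : der (fun x => ⁅z, gx x⁆) = LinearMap.mulLeft ℚ z - LinearMap.mulRight ℚ z :=
    (isDer_der _).ext (fun a b => by simp; noncomm_ring) fun x => by simp [Ring.lie_def]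
  rw [this]
  exact cm_mem z s

/-- The dependence on the values is linear. -/
noncomputable def derl : (X → T X) →ₗ[ℚ] Module.End ℚ (T X) where
  toFun := der
  map_add' f g := (isDer_der _).ext ((isDer_der f).add (isDer_der g)) fun x => by simp
  map_smul' c f := (isDer_der _).ext ((isDer_der f).smul c) fun x => by simp

/-- Move the first letter to the end. -/
noncomputable def Rot : Module.End ℚ (T X) := lin fun w => wd (w.rotate 1)

lemma Rot_mul (a : X) (s : T X) : Rot (gx a * s) = s * gx a :=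
  T_ext' (f := Rot ∘ₗ LinearMap.mulLeft ℚ (gx a)) (g := LinearMap.mulRight ℚ (gx a))
    (fun w => by simp [← wd_cons, Rot, wd_append]; exact Or.inl rfl) s

lemma Rot_pow (k : ℕ) (w : List X) : (Rot ^ k) (wd w) = wd (w.rotate k) := by
  induction k with
  | zero => simp
  | succ k ih => rw [pow_succ', Module.End.mul_apply, ih, Rot, lin_wd, List.rotate_rotate]

lemma Rot_cm (s : T X) : Rot s - s ∈ Cm X :=
  T_mem (f := Rot - LinearMap.id) (fun w => by
    cases w with
    | nil => simp [Rot]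
    | cons a w =>
      rw [LinearMap.sub_apply, LinearMap.id_apply, wd_cons, Rot_mul]
      exact cm_mem _ _) s

lemma tr_of_Rot {φ : T X →ₗ[ℚ] M} (h : ∀ s, φ (Rot s) = φ s) {s : T X} (hs : s ∈ Cm X) :
    φ s = 0 := by
  have key : ∀ (u : List X) (b : T X), φ (wd u * b) = φ (b * wd u) := fun u => by
    induction u with
    | nil => simp [wd_nil]
    | cons x u ih => intro b; rw [wd_cons, mul_assoc, ← h, Rot_mul, mul_assoc, ih, mul_assoc]
  refine Cm_mem (S := ⊥) (fun a b => ?_) hs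
  rw [map_sub, mem_bot, sub_eq_zero]
  exact T_ext' (f := φ ∘ₗ LinearMap.mulRight ℚ b) (g := φ ∘ₗ LinearMap.mulLeft ℚ b)
    (fun u => key u b) a

/-- Replace the first letter. -/
noncomputable def fst (f : X → T X) : Module.End ℚ (T X) :=
  lin fun w => match w with
    | [] => 0
    | x :: r => f x * wd r

lemma fst_mul (f : X → T X) (a : X) (s : T X) : fst f (gx a * s) = f a * s :=
  T_ext' (f := fst f ∘ₗ LinearMap.mulLeft ℚ (gx a)) (g := LinearMap.mulLeft ℚ (f a))
    (fun w => by simp [← wd_cons, fst]) s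

/-- The sum of the first rotations. -/
noncomputable def CY (p : ℕ) : Module.End ℚ (T X) := ∑ k ∈ range p, Rot ^ k

lemma CY_wd (p : ℕ) (w : List X) : CY p (wd w) = ∑ k ∈ range p, wd (w.rotate k) := by
  simp [CY, Rot_pow]

lemma CY_cm (p : ℕ) (s : T X) : CY p s - (p : ℚ) • s ∈ Cm X := by
  have : ∀ k, (Rot ^ k) s - s ∈ Cm X := fun k => by
    induction k with
    | zero => simp
    | succ k ih =>
      have := add_mem (Rot_cm ((Rot ^ k) s)) ih
      rwa [sub_add_sub_cancel, ← Module.End.mul_apply, ← pow_succ'] at this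
  have h := sum_mem fun k (_ : k ∈ range p) => this k
  rwa [sum_sub_distrib, sum_const, card_range, ← LinearMap.sum_apply, ← Nat.cast_smul_eq_nsmul ℚ]
    at h

lemma CY_inv (p : ℕ) {s : T X} (h : Rot s = s) : CY p s = (p : ℚ) • s := by
  have : ∀ k, (Rot ^ k) s = s := fun k => by
    induction k with
    | zero => simp
    | succ k ih => rw [pow_succ, Module.End.mul_apply, h, ih]
  simp [CY, this, Nat.cast_smul_eq_nsmul]

lemma Rot_Hom {p : ℕ} {s : T X} (hs : s ∈ Hom X p) : Rot s ∈ Hom X p :=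
  Hom_mem (fun w hw => by rw [Rot, lin_wd]; exact wd_mem (by simpa using hw)) hs

lemma CY_Rot {p : ℕ} {s : T X} (hs : s ∈ Hom X p) : CY p (Rot s) = CY p s :=
  Hom_ext (f := CY p ∘ₗ Rot) (fun w hw => by
    have := sum_range_succ' (fun k => wd (w.rotate k)) p
    rw [sum_range_succ, ← hw, List.rotate_length, List.rotate_zero, add_left_inj, hw] at this
    simp [Rot, CY_wd, this, List.rotate_rotate, add_comm]) hs

lemma IsDer.cyc {D : Module.End ℚ (T X)} (h : IsDer D) {p : ℕ} {s : T X} (hs : s ∈ Hom X p) :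
    D s - fst (fun x => D (gx x)) (CY p s) ∈ Cm X := by
  have key : ∀ w t : List X, D (wd w) * wd t -
      ∑ k ∈ range w.length, fst (fun x => D (gx x)) (wd ((w ++ t).rotate k)) ∈ Cm X := fun w => by
    induction w with
    | nil => simp [wd_nil, h.one]
    | cons x w ih =>
      intro t
      have := add_mem (ih (t ++ [x])) (cm_mem (gx x) (D (wd w) * wd t))
      rw [List.length_cons, sum_range_succ', List.rotate_zero, List.cons_append, wd_cons x (w ++ t),
        fst_mul, wd_cons, h]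
      simp only [List.rotate_cons_succ, List.append_assoc]
      convert this using 1
      rw [wd_append, wd_append, gx]
      noncomm_ring
  refine Hom_mem (f := D - fst (fun x => D (gx x)) ∘ₗ CY p) (fun w hw => ?_) hs
  simpa [wd_nil, CY_wd, hw] using key w []

lemma IsDer.inv {D : Module.End ℚ (T X)} (h : IsDer D) {p : ℕ} {s : T X} (hs : s ∈ Hom X p)
    (hr : Rot s = s) : D s - (p : ℚ) • fst (fun x => D (gx x)) s ∈ Cm X := by
  have := h.cyc hs
  rwa [CY_inv p hr, map_smul] at this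

variable [DecidableEq X]

/-- Remove the last letter. -/
noncomputable def dR (x : X) : Module.End ℚ (T X) :=
  lin fun w => if w.getLast? = some x then wd w.dropLast else 0

/-- Remove the first letter. -/
noncomputable def dL (x : X) : Module.End ℚ (T X) :=
  lin fun w => if w.head? = some x then wd w.tail else 0

lemma dR_gx (x y : X) (s : T X) : dR x (s * gx y) = if y = x then s else 0 :=
  T_ext' (f := dR x ∘ₗ LinearMap.mulRight ℚ (gx y)) (g := if y = x then LinearMap.id else 0)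
    (fun w => by split_ifs with h <;> simp [gx, ← wd_append, dR, h]) s |>.trans
    (by split_ifs <;> rfl)

lemma dL_gx (x y : X) (s : T X) : dL x (gx y * s) = if y = x then s else 0 :=
  T_ext' (f := dL x ∘ₗ LinearMap.mulLeft ℚ (gx y)) (g := if y = x then LinearMap.id else 0)
    (fun w => by split_ifs with h <;> simp [← wd_cons, dL, h]) s |>.trans
    (by split_ifs <;> rfl)

lemma dR_one (x : X) : dR x (1 : T X) = 0 := by rw [← wd_nil, dR, lin_wd]; simp

lemma dR_mul (x : X) (s : T X) {t : T X} {p : ℕ} (ht : t ∈ Hom X (p + 1)) :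
    dR x (s * t) = s * dR x t :=
  Hom_ext (f := dR x ∘ₗ LinearMap.mulLeft ℚ s) (g := LinearMap.mulLeft ℚ s ∘ₗ dR x)
    (fun w hw => by
      obtain ⟨u, y, rfl⟩ := (List.eq_nil_or_concat' w).resolve_left (by rintro rfl; simp at hw)
      simp only [LinearMap.comp_apply, LinearMap.mulLeft_apply, wd_append, ← mul_assoc]
      rw [← gx, dR_gx, dR_gx]
      split_ifs <;> simp) ht

lemma dL_mul (x : X) (s : T X) {t : T X} {p : ℕ} (ht : t ∈ Hom X (p + 1)) :
    dL x (t * s) = dL x t * s :=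
  Hom_ext (f := dL x ∘ₗ LinearMap.mulRight ℚ s) (g := LinearMap.mulRight ℚ s ∘ₗ dL x)
    (fun w hw => by
      obtain ⟨y, u, rfl⟩ := List.exists_cons_of_ne_nil (l := w) (by rintro rfl; simp at hw)
      simp only [LinearMap.comp_apply, LinearMap.mulRight_apply, wd_cons, mul_assoc]
      rw [dL_gx, dL_gx]
      split_ifs <;> simp) ht

variable [Fintype X]

lemma IsDer.dR {D : Module.End ℚ (T X)} (h : IsDer D) {m : ℕ}
    (hm : ∀ x, D (gx x) ∈ Hom X (m + 1)) (x : X) (t : T X) :
    dR x (D t) = D (dR x t) + ∑ y, dR y t * dR x (D (gx y)) := by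
  refine T_ext' (f := MP_f9c34c_al.dR x ∘ₗ D) (g := D ∘ₗ MP_f9c34c_al.dR x +
    ∑ y, LinearMap.mulRight ℚ (MP_f9c34c_al.dR x (D (gx y))) ∘ₗ MP_f9c34c_al.dR y) (fun w => ?_) t
    |>.trans (by simp)
  rcases List.eq_nil_or_concat' w with rfl | ⟨u, y, rfl⟩
  · simp [wd_nil, h.one, dR_one]
  · simp only [LinearMap.comp_apply, LinearMap.add_apply, LinearMap.sum_apply, wd_append,
      LinearMap.mulRight_apply]
    rw [← gx, h, map_add, dR_gx, dR_gx, dR_mul _ _ (hm y)]
    simp only [dR_gx, ite_mul, zero_mul, sum_ite_eq, mem_univ, if_true]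
    split_ifs <;> simp

/-- The divergence. -/
noncomputable def dv (D : Module.End ℚ (T X)) : T X := ∑ x, dR x (D (gx x))

lemma dv_lie {D D' : Module.End ℚ (T X)} (h : IsDer D) (h' : IsDer D') {m m' : ℕ}
    (hm : ∀ x, D (gx x) ∈ Hom X (m + 1)) (hm' : ∀ x, D' (gx x) ∈ Hom X (m' + 1))
    (e : dv D ∈ Cm X) (e' : dv D' ∈ Cm X) : dv ⁅D, D'⁆ ∈ Cm X := by
  have := add_mem (sub_mem (h.cm e') (h'.cm e)) (sum_mem fun x (_ : x ∈ univ) =>
    sum_mem fun y (_ : y ∈ univ) => cm_mem (dR y (D' (gx x))) (dR x (D (gx y))))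
  convert this using 1
  have e1 := fun x => h.dR hm x (D' (gx x))
  have e2 := fun x => h'.dR hm' x (D (gx x))
  simp only [dv, Ring.lie_def, LinearMap.sub_apply, Module.End.mul_apply, map_sub, e1, e2,
    sum_sub_distrib, sum_add_distrib, map_sum]
  rw [sum_comm (f := fun x y => dR y (D (gx x)) * dR x (D' (gx y)))]
  abel

/-- The free algebra on two letters. -/
abbrev T2 : Type := T (Fin 2)

end Pool.Agent.Lib.MP_f9c34c_al
end
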