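import Pool.Agent.Lib.MP_f9c34c_al.Trie

namespace Pool.Agent.Lib.MP_f9c34c_al

open Tr

theorem chk_p1 : isZ (theta 3 2 sg1 []) = true := by
  decide +kernel

theorem chk_p2 : ((W 1).all fun w => isZ (theta 5 4 sg2 w)) = true := by
  decide +kernel

theorem chk_m3 : memT 7 120 sg3 = true := by
  decide +kernel

theorem chk_ne : decide (pr 10 (nT [0, 1, 2]) (LamT [0, 0, 0]) ≠ 0) = true := by
  decide +kernel

theorem chk_d5 : ((List.finRange 3).all fun s =>
    chkD 10 [s] (sgT 9 (nu0 s)) 0 && chkD 10 [s] (sgT 9 (nu0 s)) 1) = true := by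
  decide +kernel

end Pool.Agent.Lib.MP_f9c34c_al
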