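import Pool.Agent.Lib.MP_f9c34c_al.Chk1

namespace Pool.Agent.Lib.MP_f9c34c_al

open Tr

theorem chk_d4 : ((W 2).all fun w => chkD 8 w z 0 && chkD 8 w z 1) = true := by
  decide +kernel

theorem chk_m4 : memT 9 1120 sg4 = true := by
  decide +kernel

end Pool.Agent.Lib.MP_f9c34c_al
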