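import Pool.Agent.Lib.MP_f9c34c_al.Chk2

namespace Pool.Agent.Lib.MP_f9c34c_al

open Tr

theorem chk_d3 : ((W 3).all fun w => chkD 6 w z 0 && chkD 6 w z 1) = true := by
  decide +kernel

end Pool.Agent.Lib.MP_f9c34c_al
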