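import Pool.Agent.Lib.MP_f9c34c_al.Chk3

namespace Pool.Agent.Lib.MP_f9c34c_al

open Tr

theorem chk_p3 : ((W 2).all fun w => vanN5 (theta 7 120 sg3 w)) = true := by
  decide +kernel

end Pool.Agent.Lib.MP_f9c34c_al
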