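import Pool.Agent.Lib.MP_f9c34c_al.Trie

namespace Pool.Agent.Lib.MP_f9c34c_al

open Tr

theorem chk_p4 : ((W 3).all fun w => vanN4 (theta 9 1120 sg4 w)) = true := by
  decide +kernel

end Pool.Agent.Lib.MP_f9c34c_al
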