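import Pool.Agent.Lib.MP_f9c34c_al.Chk5

namespace Pool.Agent.Lib.MP_f9c34c_al

open Tr

theorem chk_p4b : ((W 3).all fun w => (W 3).all fun v =>
    decide (pr 10 (nT w) (LamT v) + pr 10 (nT v) (LamT w) = 0)) = true := by
  decide +kernel

end Pool.Agent.Lib.MP_f9c34c_al
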