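import Pool.Agent.Lib.MP_f9c34c_al.Chk6

namespace Pool.Agent.Lib.MP_f9c34c_al

open Tr

theorem chk_l2a : allLie (fun t => vanN5 (thD 0 t)) 3 2 cT = true := by
  decide +kernel

end Pool.Agent.Lib.MP_f9c34c_al
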