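import Mathlib

namespace Pool.Agent.Lib.MP_f9c34c_al

/-- The span of the iterated brackets of `n + 1` members of the family `x`. -/
def len {ι M : Type*} [LieRing M] [LieAlgebra ℚ M] (x : ι → M) : ℕ → Submodule ℚ M
  | 0 => Submodule.span ℚ (Set.range x)
  | n + 1 => Submodule.span ℚ {m | ∃ i, ∃ y ∈ len x n, m = ⁅x i, y⁆}

/-- The symplectic class `∑ ⁅a i, b i⁆` in the free Lie algebra on `a i = (i, false)` and
`b i = (i, true)`, `i < g`. -/
noncomputable def omega0 (g : ℕ) : FreeLieAlgebra ℚ (Fin g × Bool) :=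
  ∑ i : Fin g, ⁅FreeLieAlgebra.of ℚ (i, false), FreeLieAlgebra.of ℚ (i, true)⁆

/-- The classes, modulo inner derivations, of the derivations of degree `n`: those sending each
generator `x i` to a combination of brackets of `n + 1` generators. -/
def hdeg {ι M : Type*} [LieRing M] [LieAlgebra ℚ M] (x : ι → M) (n : ℕ) :
    Set (LieDerivation ℚ M M ⧸ (LieDerivation.ad ℚ M).idealRange) :=
  {c | ∃ D : LieDerivation ℚ M M, (∀ i, D (x i) ∈ len x n) ∧ c = LieSubmodule.Quotient.mk D}

end Pool.Agent.Lib.MP_f9c34c_al
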