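import Pool.Agent.Lib.MP_f9c34c_al.Sem
import Pool.Agent.Lib.MP_f9c34c_al.Chk4
import Pool.Agent.Lib.MP_f9c34c_al.Chk8

-- part Pool.Agent.Lib.MP_f9c34c_al.Form
section

open Submodule Finset

attribute [local instance 100] LieRing.ofAssociativeRing

namespace Pool.Agent.Lib.MP_f9c34c_al

open Tr

/-- The commutator of the letters. -/
noncomputable def cc : T2 := ⁅(gx 0 : T2), (gx 1 : T2)⁆

/-- Three derivations of degree two. -/
noncomputable def Y (s : Fin 3) : Module.End ℚ T2 := der fun i => V 3 (yT s i)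

/-- The orbit of the square of the commutator. -/
noncomputable def nn : List (Fin 3) → T2
  | [] => cc * cc
  | s :: w => Y s (nn w)

/-- The pull-backs of the functional. -/
noncomputable def Lam : List (Fin 3) → T2 →ₗ[ℚ] ℚ
  | [] => F 16 lamT
  | s :: w => -(Lam w ∘ₗ Y s)

lemma V_cT : V 2 cT = cc := by
  rw [cT, V_ad, V_pre, V_zero]; simp [root, cc]

lemma V_dT (p : ℕ) (i j : Fin 2) (t : Tr) :
    V p (dT i t j) = Pi.single (M := fun _ => T2) i (V p t) j := by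
  rw [dT, Pi.single_apply]; split_ifs <;> simp

lemma Y_eq (s : Fin 3) : Y s = derl (Pi.single (yj s) ⁅gx (yk s), cc⁆) :=
  congrArg der (funext fun i => by rw [yT, V_dT, V_ad, V_cT])

lemma isDer_Y (s : Fin 3) : IsDer (Y s) := isDer_der _

lemma Y_hom (s : Fin 3) {p : ℕ} {y : T2} (hy : y ∈ Hom _ p) : Y s y ∈ Hom _ (p + 2) :=
  (isDer_Y s).hom (fun x => by rw [Y, der_gx]; exact V_mem _ _) hy

lemma len_cc : len gx 1 ≤ span ℚ {cc} := len_le fun i y hy =>
  len_le0 (S := (span ℚ {cc}).comap (LieModule.toEnd ℚ T2 T2 (gx i))) (fun j => by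
    rw [mem_comap, LieModule.toEnd_apply_apply]
    fin_cases i <;> fin_cases j
    · simp
    · exact mem_span_singleton_self _
    · exact neg_mem_iff.1 (by rw [lie_skew]; exact mem_span_singleton_self _)
    · simp) hy

lemma cc_len : cc ∈ len gx 1 := len_succ 0 (len_zero 1)

lemma nn_hom : ∀ w : List (Fin 3), nn w ∈ Hom _ (2 * w.length + 4)
  | [] => Hom_mul (p := 2) (q := 2) (len_Hom 1 cc_len) (len_Hom 1 cc_len)
  | s :: w => Y_hom s (nn_hom w)

lemma Lam_cm : ∀ (w : List (Fin 3)), ∀ s ∈ Cm _, Lam w s = 0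
  | [], _, hs => F_tr 15 _ hs
  | a :: w, s, hs => by simp [Lam, Lam_cm w _ ((isDer_Y a).cm hs)]

lemma Lam_hom : ∀ (w : List (Fin 3)) {q : ℕ} {s : T2}, s ∈ Hom _ q → q + 2 * w.length ≠ 16 →
    Lam w s = 0
  | [], _, _, hs, h => F_hom0 _ h hs
  | a :: w, q, s, hs, h => by
    simp [Lam, Lam_hom w (Y_hom a hs) (by rw [List.length_cons] at h; omega)]

lemma Lam_eq : ∀ (w : List (Fin 3)) (p : ℕ), p + 1 + 2 * w.length = 16 →
    F (p + 1) (LamT w) = Lam w
  | [], p, h => by obtain rfl : p = 15 := by simpa using h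
                   rfl
  | s :: w, p, h => by
    rw [List.length_cons] at h
    have e := Lam_eq w (p + 2) (by omega)
    change F (p + 1) (Tr.lin (-1) (pull 2 (13 - 2 * w.length) (yT s) (LamT w)) z) = _
    rw [F_lin, show 13 - 2 * w.length = p by omega, pull_sound 2 p _ _ (isDer_Y s)
      (fun i => der_gx _ _) (fun s hs => (LinearMap.congr_fun e s).trans (Lam_cm w s hs)),
      show p + (2 + 1) = p + 2 + 1 from rfl, e]
    simp [Lam]

/-- The tree `t` encodes the cyclic sum of `n`. -/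
def Cy (q : ℕ) (t : Tr) (n : T2) : Prop :=
  Rot (V (q + 1) t) = V (q + 1) t ∧ V (q + 1) t - ((q : ℚ) + 1) • n ∈ Cm _

lemma Cy.der {q : ℕ} {t : Tr} {n : T2} (h : Cy q t n) {D : Module.End ℚ T2} (hD : IsDer D) :
    D n - ∑ i, D (gx i) * V q (ch i t) ∈ Cm _ := by
  have := sub_mem (hD.inv (V_mem _ _) h.1) (hD.cm h.2)
  rw [map_sub, sub_sub_sub_cancel_left, map_smul, V_succ, map_sum] at this
  simp only [fst_mul, Nat.cast_succ, ← smul_sub] at this
  exact (smul_mem_iff _ (by positivity)).1 this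

lemma Cy.der' {q : ℕ} {t : Tr} {n : T2} (h : Cy q t n) {D : Module.End ℚ T2} (hD : IsDer D)
    {φ : T2 →ₗ[ℚ] ℚ} (hφ : ∀ s ∈ Cm _, φ s = 0) :
    φ (D n) = ∑ i, φ (V q (ch i t) * D (gx i)) := by
  have := hφ _ (add_mem (h.der hD) (sum_mem fun i (_ : i ∈ univ) =>
    cm_mem (D (gx i)) (V q (ch i t))))
  rwa [sum_sub_distrib, sub_add_sub_cancel, map_sub, sub_eq_zero, map_sum] at this

lemma Cy.pr {q : ℕ} {t : Tr} {n : T2} (h : Cy q t n) {u : Tr}
    (hu : ∀ s ∈ Cm _, F (q + 1) u s = 0) :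
    (pr (q + 1) t u : ℚ) = ((q : ℚ) + 1) * F (q + 1) u n := by
  have := hu _ h.2
  rwa [map_sub, map_smul, sub_eq_zero, ← pr_eq] at this

lemma Cy.cyc {q : ℕ} {t : Tr} {n : T2} (h : n - V (q + 1) t ∈ Cm _) : Cy q (cyc q t) n :=
  ⟨V_cyc_rot q t, by
    have := sub_mem (V_cyc q t) (smul_mem _ ((q : ℚ) + 1) h)
    rwa [smul_sub, sub_sub, add_sub_cancel] at this⟩

lemma nT_cy : ∀ (w : List (Fin 3)) (q : ℕ), q = 3 + 2 * w.length → Cy q (nT w) (nn w)
  | [], _, rfl => Cy.cyc (by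
    rw [show 3 + 2 * [].length + 1 = 2 + 2 from rfl, V_mul, V_cT, nn, sub_self]
    exact zero_mem _)
  | s :: w, q, h => by
    rw [List.length_cons] at h
    change Cy q (frc (nT w) fun u => cyc (5 + 2 * w.length)
      (add (mulT 3 (yT s 0) (c0 u)) (mulT 3 (yT s 1) (c1 u)))) _
    rw [frc_eq, show 5 + 2 * w.length = q by omega]
    refine Cy.cyc ?_
    have := (nT_cy w _ rfl).der (isDer_Y s)
    rw [V_add, show q + 1 = 3 + 2 * w.length + 3 by omega, V_mul, V_mul]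
    simpa [Y, ch_zero, ch_one, nn] using this

lemma mem_W : ∀ w : List (Fin 3), w ∈ W w.length
  | [] => by simp [W]
  | s :: w => List.mem_flatMap.2 ⟨w, mem_W w, by fin_cases s <;> simp⟩

/-- The spaces on which the form is invariant. -/
noncomputable def N (k : ℕ) : Submodule ℚ T2 :=
  span ℚ {s | s ∈ Cm _ ∨ (∃ w, w.length = k ∧ s = nn w) ∨ (k = 4 ∧ ∃ D, IsDer D ∧
    (∀ i, D (gx i) ∈ len gx 8) ∧ s = D (nn [])) ∨ (5 ≤ k ∧ s ∈ Hom _ (2 * k + 4))}

lemma cm_N {k : ℕ} {s : T2} (h : s ∈ Cm _) : s ∈ N k := subset_span (Or.inl h)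

lemma nn_N {k : ℕ} {w : List (Fin 3)} (h : w.length = k) : nn w ∈ N k :=
  subset_span (Or.inr (Or.inl ⟨w, h, rfl⟩))

lemma hom_N {k : ℕ} (hk : 5 ≤ k) {s : T2} (h : s ∈ Hom _ (2 * k + 4)) : s ∈ N k :=
  subset_span (Or.inr (Or.inr (Or.inr ⟨hk, h⟩)))

lemma N_le {k : ℕ} {S : Submodule ℚ T2} (h1 : ∀ s ∈ Cm _, s ∈ S)
    (h2 : ∀ w : List (Fin 3), w.length = k → nn w ∈ S)
    (h3 : k = 4 → ∀ D, IsDer D → (∀ i, D (gx i) ∈ len gx 8) → D (nn []) ∈ S)
    (h4 : 5 ≤ k → Hom _ (2 * k + 4) ≤ S) : N k ≤ S :=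
  span_le.2 (by
    rintro _ (h | ⟨w, h, rfl⟩ | ⟨h, D, hD, h', rfl⟩ | ⟨h, h'⟩)
    exacts [h1 _ h, h2 w h, h3 h D hD h', h4 h h'])

lemma N_le' {k : ℕ} (hk : k ≤ 3) {S : Submodule ℚ T2} (h1 : ∀ s ∈ Cm _, s ∈ S)
    (h2 : ∀ w : List (Fin 3), w.length = k → nn w ∈ S) : N k ≤ S :=
  N_le h1 h2 (by omega) (by omega)

/-- Homogeneous elements up to commutators. -/
noncomputable def H (k : ℕ) : Submodule ℚ T2 := Hom _ (2 * k + 4) ⊔ Cm _

lemma N_H {k : ℕ} {s : T2} (hs : s ∈ N k) : s ∈ H k :=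
  N_le (fun _ => mem_sup_right) (by rintro w rfl; exact mem_sup_left (nn_hom w))
    (by rintro rfl D hD h; exact mem_sup_left (hD.hom (fun i => len_Hom 8 (h i)) (nn_hom [])))
    (fun _ => le_sup_left) hs

lemma H_zero {φ : T2 →ₗ[ℚ] ℚ} {k : ℕ} (h1 : ∀ s ∈ Cm _, φ s = 0)
    (h2 : ∀ s ∈ Hom _ (2 * k + 4), φ s = 0) {s : T2} (hs : s ∈ H k) : φ s = 0 :=
  sup_le (c := LinearMap.ker φ) h2 h1 hs

lemma der_H {D : Module.End ℚ T2} (hD : IsDer D) {l k : ℕ}
    (h : ∀ i, D (gx i) ∈ len gx (2 * l + 2)) {s : T2} (hs : s ∈ N k) : D s ∈ H (k + l + 1) :=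
  sup_le (c := (H (k + l + 1)).comap D) (fun s hs => mem_sup_left (by
    have := hD.hom (fun i => len_Hom _ (h i)) hs
    rwa [show 2 * k + 4 + (2 * l + 2) = 2 * (k + l + 1) + 4 by ring] at this))
    (fun _ hs => mem_sup_right (hD.cm hs)) (N_H hs)

lemma der_N {D : Module.End ℚ T2} (hD : IsDer D) {l k : ℕ}
    (h : ∀ i, D (gx i) ∈ len gx (2 * l + 2)) (hk : 4 ≤ k + l) {s : T2} (hs : s ∈ N k) :
    D s ∈ N (k + l + 1) :=
  sup_le (c := N (k + l + 1)) (fun _ => hom_N (by omega)) (fun _ => cm_N) (der_H hD h hs)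

lemma der_split {D : Module.End ℚ T2} (hD : IsDer D) :
    D = ∑ i, derl (Pi.single i (D (gx i))) := by
  rw [← map_sum, univ_sum_single]
  exact hD.ext (isDer_der _) fun x => (der_gx (fun x => D (gx x)) x).symm

lemma deg2_ind (P : Submodule ℚ (Module.End ℚ T2)) (hY : ∀ s, Y s ∈ P)
    (hI : ∀ D : Module.End ℚ T2, (∀ s, D s ∈ Cm _) → D ∈ P) {D : Module.End ℚ T2} (hD : IsDer D)
    (h : ∀ i, D (gx i) ∈ len gx 2) : D ∈ P := by
  rw [der_split hD]
  refine sum_mem fun i _ => len_le (S := P.comap (derl ∘ₗ LinearMap.single ℚ _ i))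
    (fun j y hy => ?_) (h i)
  obtain ⟨r, rfl⟩ := mem_span_singleton.1 (len_cc hy)
  rw [lie_smul]
  refine smul_mem _ _ ?_
  change derl (Pi.single i ⁅gx j, cc⁆) ∈ P
  fin_cases i <;> fin_cases j
  · exact Y_eq 0 ▸ hY 0
  · exact Y_eq 1 ▸ hY 1
  · exact Y_eq 2 ▸ hY 2
  · have := sub_mem (hI _ (der_inner (-cc))) (hY 0)
    rw [Y_eq] at this
    convert this using 1
    refine eq_sub_of_add_eq ((map_add _ _ _).symm.trans (congrArg der (funext fun x => ?_)))
    fin_cases x <;> simp [yj, yk]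

lemma der_N0 {D : Module.End ℚ T2} (hD : IsDer D) (h : ∀ i, D (gx i) ∈ len gx 2) {k : ℕ} {n : T2}
    (hn : n ∈ N k) : D n ∈ N (k + 1) := by
  by_cases hk : k ≤ 3
  · exact deg2_ind ((N (k + 1)).comap (LinearMap.applyₗ n)) (fun s => N_le' hk
      (S := (N (k + 1)).comap (Y s)) (fun y hy => cm_N ((isDer_Y s).cm hy))
      (fun w hw => nn_N (w := s :: w) (by simp [hw])) hn) (fun D hD => cm_N (hD n)) hD h
  · exact der_N (l := 0) hD h (by omega) hn

lemma gx_N (i : Fin 2) {t : T2} (ht : t ∈ len gx 2) : gx i * t ∈ N 0 := by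
  refine len_le (S := (N 0).comap (LinearMap.mulLeft ℚ (gx i))) (fun j y hy => ?_) ht
  obtain ⟨r, rfl⟩ := mem_span_singleton.1 (len_cc hy)
  obtain ⟨r', h⟩ := mem_span_singleton.1 (len_cc (len_succ i (len_zero j)))
  rw [lie_smul]
  refine smul_mem _ _ ?_
  have := add_mem (smul_mem _ r' (nn_N (k := 0) (w := []) rfl)) (cm_N (cm_mem (gx j) (gx i * cc)))
  rw [nn, ← smul_mul_assoc, h] at this
  rw [mem_comap, LinearMap.mulLeft_apply]
  convert this using 1
  simp only [Ring.lie_def]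
  noncomm_ring

lemma vanX_sound {m : ℕ} {t : Tr} (h : vanX m t = true) (ht : ∀ s ∈ Cm _, F (m + 4) t s = 0)
    {D : Module.End ℚ T2} (hD : IsDer D) (hm : ∀ i, D (gx i) ∈ len gx m) :
    F (m + 4) t (D (nn [])) = 0 := by
  rw [vanX, frc_eq, Bool.and_eq_true] at h
  have h0 := lieZ_sound _ _ h.1 (hm 0)
  have h1 := lieZ_sound _ _ h.2 (hm 1)
  rw [LinearMap.mem_ker, F_con, F_z, LinearMap.zero_apply, zero_add] at h0 h1
  rw [(nT_cy [] 3 rfl).der' hD ht, Fin.sum_univ_two]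
  exact (congrArg₂ (· + ·) h0 h1).trans (add_zero 0)

lemma vanN4_sound {t : Tr} (h : vanN4 t = true) (ht : ∀ s ∈ Cm _, F 10 t s = 0) :
    N 3 ≤ LinearMap.ker (F 10 t) := N_le' le_rfl ht fun w hw => by
  rw [vanN4, frc_eq, List.all_eq_true] at h
  have := (nT_cy w 9 (by omega)).pr ht
  rw [of_decide_eq_true (h w (by simpa only [hw] using mem_W w))] at this
  exact (mul_eq_zero.1 (this.symm.trans Int.cast_zero)).resolve_left (by norm_num)

lemma vanN5_sound {t : Tr} (h : vanN5 t = true) (ht : ∀ s ∈ Cm _, F 12 t s = 0) :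
    N 4 ≤ LinearMap.ker (F 12 t) := by
  rw [vanN5, frc_eq, Bool.and_eq_true, List.all_eq_true] at h
  refine N_le ht (fun w hw => ?_) (fun _ D hD hm => vanX_sound h.2 ht hD hm) (by omega)
  obtain ⟨s, u, rfl⟩ := List.exists_cons_of_length_eq_add_one hw
  have e := pull_sound 2 9 (yT s) t (isDer_Y s) (fun i => der_gx _ _) ht
  have := vanN4_sound (h.1 s (List.mem_finRange s))
    (fun y hy => (LinearMap.congr_fun e y).trans (ht _ ((isDer_Y s).cm hy)))
    (nn_N (w := u) (by simpa using hw))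
  exact (LinearMap.congr_fun e _).symm.trans this

/-- The section attached to a list. -/
noncomputable def sl (p : ℕ) : EL → T2 →ₗ[ℚ] T2
  | [] => 0
  | e :: E => (F (p + 1) (sgT p e.2)).smulRight (nn e.1) + sl p E

lemma sl_mem (p k : ℕ) (s : T2) : ∀ E : EL, (∀ e ∈ E, e.1.length = k) →
    sl p E s ∈ N k ⊓ Hom _ (2 * k + 4)
  | [], _ => zero_mem _
  | e :: E, h => add_mem (smul_mem _ _ ⟨nn_N (h e (by simp)), h e (by simp) ▸ nn_hom e.1⟩)
    (sl_mem p k s E fun e he => h e (by simp [he]))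

lemma comb_sl (k : ℕ) (u t : Tr) (hu : ∀ s ∈ Cm _, F (2 * k + 3 + 1) u s = 0) (y : T2) :
    ∀ E : EL, (∀ e ∈ E, e.1.length = k) →
    F (2 * k + 3 + 1) (comb E (fun e => pr (2 * k + 3 + 1) (nT e.1) u)
      (fun e => sgT (2 * k + 3) e.2) t) y =
      F (2 * k + 3 + 1) t y + (2 * k + 4) * F (2 * k + 3 + 1) u (sl (2 * k + 3) E y)
  | [], _ => by simp [comb, sl]
  | e :: E, h => by
    change F _ (Tr.lin _ _ (comb E _ _ t)) y = _
    rw [F_lin, LinearMap.add_apply, comb_sl k u t hu y E fun e he => h e (by simp [he]),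
      (nT_cy e.1 _ (by rw [h e (by simp)]; ring)).pr hu]
    simp only [sl, LinearMap.smul_apply, LinearMap.add_apply, LinearMap.smulRight_apply, map_add,
      map_smul, smul_eq_mul]
    push_cast
    ring

lemma memT_sound (k : ℕ) {d : ℤ} (hd : d ≠ 0) {E : EL} (hE : ∀ e ∈ E, e.1.length = k)
    (h : memT (2 * k + 3) d E = true) {D : Module.End ℚ T2} (hD : IsDer D)
    (hm : ∀ i, D (gx i) ∈ len gx (2 * k)) : D (nn []) ∈ N k := by
  have h1 := sl_mem (2 * k + 3) k (D (nn [])) E hE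
  have h2 : sl (2 * k + 3) E (D (nn [])) - (d : ℚ) • D (nn []) ∈ Hom _ (2 * k + 3 + 1) :=
    sub_mem h1.2 (smul_mem _ _ (by
      rw [show 2 * k + 3 + 1 = 4 + 2 * k by ring]
      exact hD.hom (fun i => len_Hom _ (hm i)) (nn_hom [])))
  have h3 := allW_sound _ _ h _ (CY_Hom (2 * k + 3 + 1) h2) fun t ht => by
    rw [frc_eq, Nat.add_sub_cancel] at ht
    have hc := fun y => comb_sl k _ (Tr.lin (-(d * ((2 * k + 3 : ℕ) + 1))) (cyc (2 * k + 3) t) z)
      (fun s => F_tr _ t) y E hE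
    have := vanX_sound ht (fun s hs => (hc s).trans (by
      have : ∀ E : EL, sl (2 * k + 3) E s = 0 := fun E => by
        induction E with
        | nil => rfl
        | cons e E ih => simp [sl, ih, sgT, F_tr _ _ hs]
      simp [F_lin, F_tr _ _ hs, this])) hD hm
    rw [← F_cyc, map_sub, map_smul]
    replace this := (hc _).symm.trans this
    rw [F_lin, F_z, zero_add, LinearMap.smul_apply] at this
    refine (mul_eq_zero.1 ?_).resolve_left (show (2 * k + 4 : ℚ) ≠ 0 by positivity)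
    rw [← this, smul_eq_mul, smul_eq_mul]
    push_cast
    ring
  have h4 := CY_cm (2 * k + 3 + 1) (sl (2 * k + 3) E (D (nn [])) - (d : ℚ) • D (nn []))
  rw [h3, zero_sub, neg_mem_iff, smul_mem_iff _ (by positivity)] at h4
  have := sub_mem h1.1 (cm_N h4)
  rwa [sub_sub_cancel, smul_mem_iff _ (by exact_mod_cast hd)] at this

lemma sg1_len : ∀ e ∈ sg1, e.1.length = 0 := by decide
lemma sg2_len : ∀ e ∈ sg2, e.1.length = 1 := by decide
lemma sg3_len : ∀ e ∈ sg3, e.1.length = 2 := by decide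
lemma sg4_len : ∀ e ∈ sg4, e.1.length = 3 := by decide

lemma der_N1 {D : Module.End ℚ T2} (hD : IsDer D) {l : ℕ} (h : ∀ i, D (gx i) ∈ len gx (2 * l + 2))
    {n : T2} (hn : n ∈ N 0) : D n ∈ N (l + 1) := by
  by_cases hl : 4 ≤ l
  · simpa using der_N hD h (k := 0) (by omega) hn
  refine N_le' (S := (N (l + 1)).comap D) (by omega) (fun s hs => cm_N (hD.cm hs))
    (fun w hw => ?_) hn
  obtain rfl := List.length_eq_zero_iff.1 hw
  obtain rfl | rfl | rfl | rfl : l = 0 ∨ l = 1 ∨ l = 2 ∨ l = 3 := by omega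
  exacts [der_N0 hD h (nn_N rfl), memT_sound 2 (by decide) sg3_len chk_m3 hD h,
    memT_sound 3 (by decide) sg4_len chk_m4 hD h,
    subset_span (Or.inr (Or.inr (Or.inl ⟨rfl, D, hD, h, rfl⟩)))]

end Pool.Agent.Lib.MP_f9c34c_al
end
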