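import Pool.Agent.Lib.MP_f9c34c_al.Alg

-- part Pool.Agent.Lib.MP_f9c34c_al.Symp
section

open Submodule Finset

attribute [local instance 100] LieRing.ofAssociativeRing

namespace Pool.Agent.Lib.MP_f9c34c_al

/-- The free algebra on four letters. -/
abbrev T4 : Type := T (Fin 2 × Bool)

/-- The letters of the first kind. -/
noncomputable abbrev ga (i : Fin 2) : T4 := gx (i, false)

/-- The letters of the second kind. -/
noncomputable abbrev gb (i : Fin 2) : T4 := gx (i, true)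

/-- Kill the letters of the second kind. -/
noncomputable def rho : T4 →ₐ[ℚ] T2 :=
  MonoidAlgebra.lift ℚ T2 _ (FreeMonoid.lift fun x => if x.2 then 0 else gx x.1)

lemma rho_gx (x : Fin 2 × Bool) : rho (gx x) = if x.2 then 0 else gx x.1 := by
  simp [rho, gx, wd]

@[simp] lemma rho_a (i : Fin 2) : rho (ga i) = gx i := rho_gx _
@[simp] lemma rho_b (i : Fin 2) : rho (gb i) = 0 := rho_gx _

lemma rho_lie (a b : T4) : rho ⁅a, b⁆ = ⁅rho a, rho b⁆ := by simp [Ring.lie_def]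

lemma rho_len (n : ℕ) {s : T4} (hs : s ∈ len gx n) : rho s ∈ len gx n :=
  map_len (φ := rho.toLinearMap) rho_lie (fun x => by
    rw [AlgHom.toLinearMap_apply, rho_gx]
    split_ifs
    exacts [zero_mem _, len_zero _]) n hs

lemma rho_cm {s : T4} (hs : s ∈ Cm _) : rho s ∈ Cm _ :=
  Cm_mem (f := rho.toLinearMap) (fun a b => by simpa using cm_mem (rho a) (rho b)) hs

lemma rho_dR (i : Fin 2) (s : T4) : rho (dR (i, false) s) = dR i (rho s) := by
  refine T_ext' (f := rho.toLinearMap ∘ₗ dR (i, false)) (g := dR i ∘ₗ rho.toLinearMap)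
    (fun w => ?_) s
  rcases List.eq_nil_or_concat' w with rfl | ⟨u, ⟨j, _ | _⟩, rfl⟩
  · simp [wd_nil, dR_one]
  all_goals simp only [LinearMap.comp_apply, wd_append, ← gx.eq_1, dR_gx]
  · by_cases h : j = i <;> simp [h, dR_gx]
  · simp

lemma rho_dL (i : Fin 2) (s : T4) : rho (dL (i, false) s) = dL i (rho s) := by
  refine T_ext' (f := rho.toLinearMap ∘ₗ dL (i, false)) (g := dL i ∘ₗ rho.toLinearMap)
    (fun w => ?_) s
  rcases w with _ | ⟨⟨j, _ | _⟩, u⟩
  · have : dL i (1 : T2) = 0 := by rw [← wd_nil]; simp [dL]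
    rw [LinearMap.comp_apply, dL, lin_wd]
    simp [wd_nil, this]
  all_goals simp only [LinearMap.comp_apply, wd_cons, dL_gx]
  · by_cases h : j = i <;> simp [h, dL_gx]
  · simp

/-- The symplectic element. -/
noncomputable def om : T4 := ∑ i, ⁅ga i, gb i⁆

/-- Symplectic derivations of degree `m` with vanishing trace. -/
noncomputable def Sy (m : ℕ) : Submodule ℚ (Module.End ℚ T4) where
  carrier := {D | IsDer D ∧ (∀ x, D (gx x) ∈ len gx m) ∧ D om = 0 ∧ dv D ∈ Cm _}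
  add_mem' {D D'} h h' := ⟨h.1.add h'.1, fun x => add_mem (h.2.1 x) (h'.2.1 x),
    by simp [h.2.2.1, h'.2.2.1], by simpa [dv, sum_add_distrib] using add_mem h.2.2.2 h'.2.2.2⟩
  zero_mem' := ⟨IsDer.zero, fun _ => zero_mem _, rfl, by simp [dv]⟩
  smul_mem' c D h := ⟨h.1.smul c, fun x => smul_mem _ _ (h.2.1 x), by simp [h.2.2.1],
    by simpa [dv, smul_sum] using smul_mem _ c h.2.2.2⟩

variable {D D' : Module.End ℚ T4} {m m' : ℕ}

lemma Sy_lie (h : D ∈ Sy m) (h' : D' ∈ Sy m') : ⁅D, D'⁆ ∈ Sy (m' + m) :=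
  ⟨h.1.lie h'.1, fun x => sub_mem (der_len h.1.br h.2.1 _ (h'.2.1 x))
      (add_comm m m' ▸ der_len h'.1.br h'.2.1 _ (h.2.1 x)),
    by simp [Ring.lie_def, h.2.2.1, h'.2.2.1],
    dv_lie h.1 h'.1 (fun x => len_Hom _ (h.2.1 x)) (fun x => len_Hom _ (h'.2.1 x)) h.2.2.2 h'.2.2.2⟩

lemma der_om (h : IsDer D) : D om =
    ∑ i, (D (ga i) * gb i - gb i * D (ga i) + (ga i * D (gb i) - D (gb i) * ga i)) := by
  simp only [om, map_sum, h.br]
  rfl

lemma dv_eq (h : IsDer D) (hm : ∀ x, D (gx x) ∈ len gx m) (e : D om = 0) :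
    dv D = ∑ i, (dR (i, false) (D (ga i)) - dL (i, false) (D (ga i))) := by
  rw [dv, Fintype.sum_prod_type]
  refine sum_congr rfl fun i _ => ?_
  have := congrArg (fun s => dL (i, false) (dR (i, true) s)) (e.symm.trans (der_om h))
  simp only [map_sum, map_add, map_sub, dR_gx, dR_mul _ _ (len_Hom _ (hm _)), dL_gx,
    apply_ite (dL (i, false))] at this
  simp [sum_add_distrib] at this
  rw [Fintype.sum_bool, eq_neg_of_add_eq_zero_right this.symm]
  abel

lemma Sy_two (h : IsDer D) (hm : ∀ x, D (gx x) ∈ len gx 2) (e : D om = 0) : D ∈ Sy 2 := by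
  refine ⟨h, hm, e, ?_⟩
  rw [dv_eq h hm e]
  refine sum_mem fun i _ => ?_
  generalize (i, false) = a
  refine len_le (S := (Cm _).comap (dR a - dL a)) (fun x y hy => ?_) (hm _)
  refine len_le (S := (Cm _).comap ((dR a - dL a) ∘ₗ LieModule.toEnd ℚ T4 T4 (gx x)))
    (fun y z hz => ?_) hy
  refine len_le0 (S := (Cm _).comap ((dR a - dL a) ∘ₗ LieModule.toEnd ℚ T4 T4 (gx x) ∘ₗ
    LieModule.toEnd ℚ T4 T4 (gx y))) (fun z => ?_) hz
  change (dR a - dL a) ⁅gx x, ⁅gx y, gx z⁆⁆ ∈ Cm (Fin 2 × Bool)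
  have : ∀ (p : Prop) [Decidable p] (s t : T4), (if p then s * t - t * s else 0) ∈ Cm (Fin 2 × Bool) :=
    fun p _ s t => by split_ifs; exacts [cm_mem _ _, zero_mem _]
  convert add_mem (add_mem (this (z = a) (gx x) (gx y)) (this (y = a) (gx z) (gx x)))
    (smul_mem _ 2 (this (x = a) (gx z) (gx y))) using 1
  have hR : ∀ x y z, dR a (gx x * (gx y * gx z)) = if z = a then gx x * gx y else 0 :=
    fun x y z => by rw [← mul_assoc, dR_gx]
  simp only [Ring.lie_def, mul_sub, sub_mul, LinearMap.sub_apply, map_sub, mul_assoc, hR, dL_gx]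
  split_ifs <;> module

/-- The induced derivation on two letters. -/
noncomputable def del : Module.End ℚ T4 →ₗ[ℚ] Module.End ℚ T2 :=
  derl ∘ₗ LinearMap.pi fun i => rho.toLinearMap ∘ₗ LinearMap.applyₗ (ga i)

lemma isDer_del (D : Module.End ℚ T4) : IsDer (del D) := isDer_der _

lemma del_gx (D : Module.End ℚ T4) (i : Fin 2) : del D (gx i) = rho (D (ga i)) := der_gx _ _

lemma del_len (h : D ∈ Sy m) (i : Fin 2) : del D (gx i) ∈ len gx m :=
  del_gx D i ▸ rho_len m (h.2.1 _)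

lemma del_es (h : D ∈ Sy m) : ∑ i, (dL i (del D (gx i)) - dR i (del D (gx i))) ∈ Cm _ := by
  have := neg_mem (rho_cm h.2.2.2)
  rw [dv_eq h.1 h.2.1 h.2.2.1] at this
  simpa [del_gx, rho_dR, rho_dL, add_comm] using this

/-- The Hamiltonian of a derivation. -/
noncomputable def UU (D : Module.End ℚ T4) : T4 := ∑ i, (ga i * D (gb i) - gb i * D (ga i))

/-- Its normalized part in two letters. -/
noncomputable def hh : Module.End ℚ T4 →ₗ[ℚ] T2 :=
  (lin fun w => (w.length : ℚ)⁻¹ • wd w) ∘ₗ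
    ∑ i, LinearMap.mulLeft ℚ (gx i) ∘ₗ rho.toLinearMap ∘ₗ LinearMap.applyₗ (gb i)

lemma hh_zero (h : ∀ i, rho (D (gb i)) = 0) : hh D = 0 := by simp [hh, h]

lemma rho_UU (D : Module.End ℚ T4) : rho (UU D) = ∑ i, gx i * rho (D (gb i)) := by simp [UU]

lemma uu_hom (h : D ∈ Sy m) : rho (UU D) ∈ Hom _ (m + 2) := by
  rw [rho_UU, show m + 2 = 1 + (m + 1) by ring]
  exact sum_mem fun i _ => Hom_mul (gx_mem i) (len_Hom _ (rho_len _ (h.2.1 _)))

lemma hh_eq (h : D ∈ Sy m) : rho (UU D) = ((m : ℚ) + 2) • hh D := by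
  have := Hom_ext (f := LinearMap.id) (g := ((m : ℚ) + 2) • lin fun w => (w.length : ℚ)⁻¹ • wd w)
    (fun w hw => by
      rw [LinearMap.smul_apply, lin_wd, hw, smul_smul]
      push_cast
      rw [mul_inv_cancel₀ (by positivity), one_smul]
      rfl) (uu_hom h)
  rw [LinearMap.id_apply] at this
  rw [this, rho_UU]
  simp [hh]

lemma der_hh (h : D ∈ Sy m) {E : Module.End ℚ T2} (hE : IsDer E) :
    E (hh D) - ∑ i, E (gx i) * rho (D (gb i)) ∈ Cm _ := by
  have := hE.inv (uu_hom h) (by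
    have := congrArg rho (h.2.2.1.symm.trans (der_om h.1))
    rw [rho_UU, map_sum]
    simp only [Rot_mul]
    rw [eq_comm, ← sub_eq_zero, ← sum_sub_distrib]
    simpa [-sum_sub_distrib] using this.symm)
  rw [← smul_mem_iff (s := (m : ℚ) + 2) _ (by positivity), smul_sub, ← map_smul, ← hh_eq h]
  simpa [rho_UU, fst_mul] using this

lemma der_UU (h : D ∈ Sy m) (h' : IsDer D') : D' (UU D) -
    ((m : ℚ) + 2) • ∑ i, (D' (ga i) * D (gb i) - D' (gb i) * D (ga i)) ∈ Cm _ := by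
  have := h'.inv (s := UU D) (p := 1 + (m + 1)) (sum_mem fun i _ => sub_mem
    (Hom_mul (gx_mem _) (len_Hom _ (h.2.1 _))) (Hom_mul (gx_mem _) (len_Hom _ (h.2.1 _)))) (by
      have := h.2.2.1.symm.trans (der_om h.1)
      rw [UU, map_sum, ← sub_eq_zero, ← sum_sub_distrib, ← neg_eq_zero, this, ← sum_neg_distrib]
      refine sum_congr rfl fun i _ => ?_
      rw [map_sub, Rot_mul, Rot_mul]
      abel)
  rw [show ((1 + (m + 1) : ℕ) : ℚ) = m + 2 by push_cast; ring] at this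
  simpa only [UU, map_sum, map_sub, fst_mul] using this

lemma hh_lie (h : D ∈ Sy m) (h' : D' ∈ Sy m') :
    hh ⁅D, D'⁆ - (del D (hh D') - del D' (hh D)) ∈ Cm _ := by
  have c1 := sum_mem fun i (_ : i ∈ univ) => sub_mem (cm_mem (D' (ga i)) (D (gb i)))
    (cm_mem (D' (gb i)) (D (ga i)))
  have e1 : UU ⁅D, D'⁆ - (((m' + m : ℕ) : ℚ) + 2) •
      ∑ i, (D (ga i) * D' (gb i) - D (gb i) * D' (ga i)) ∈ Cm _ := by
    convert sub_mem (sub_mem (der_UU h' h.1) (der_UU h h'.1)) (smul_mem _ ((m : ℚ) + 1) c1) using 1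
    simp only [UU, Ring.lie_def, Fin.sum_univ_two, map_add, map_sub, h.1 _ _, h'.1 _ _,
      LinearMap.sub_apply, Module.End.mul_apply, mul_sub]
    push_cast
    module
  have e2 := rho_cm e1
  rw [map_sub, map_smul, hh_eq (Sy_lie h h'), ← smul_sub, smul_mem_iff _ (by positivity)] at e2
  convert sub_mem (sub_mem e2 (sub_mem (der_hh h' (isDer_del D)) (der_hh h (isDer_del D'))))
    (sum_mem fun i (_ : i ∈ univ) => cm_mem (rho (D (gb i))) (rho (D' (ga i)))) using 1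
  simp only [del_gx, Fin.sum_univ_two, map_add, map_sub, map_mul]
  abel

end Pool.Agent.Lib.MP_f9c34c_al
end
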