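import Pool.Agent.Lib.MP_f9c34c_al.Form
import Pool.Agent.Lib.MP_f9c34c_al.Symp

-- part Pool.Agent.Lib.MP_f9c34c_al.Inv
section

open Submodule Finset

attribute [local instance 100] LieRing.ofAssociativeRing

namespace Pool.Agent.Lib.MP_f9c34c_al

open Tr

/-- The bilinear map attached to a list. -/
noncomputable def bl (p : ℕ) : EL → T2 →ₗ[ℚ] T2 →ₗ[ℚ] ℚ
  | [] => 0
  | e :: E => (F (p + 1) (sgT p e.2)).smulRight (Lam e.1) + bl p E

lemma bl_cm (p : ℕ) {s : T2} (hs : s ∈ Cm _) : ∀ E : EL, bl p E s = 0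
  | [] => rfl
  | e :: E => by simp [bl, bl_cm p hs E, sgT, F_tr _ _ hs]

lemma bl_cm' (p : ℕ) (s : T2) {t : T2} (ht : t ∈ Cm _) : ∀ E : EL, bl p E s t = 0
  | [] => rfl
  | e :: E => by simp [bl, bl_cm' p s ht E, Lam_cm _ _ ht]

lemma bl_l {p i : ℕ} {s : T2} (hs : s ∈ H i) (h : 2 * i + 3 ≠ p) : ∀ E : EL, bl p E s = 0
  | [] => rfl
  | e :: E => by
    simp [bl, bl_l hs h E, H_zero (φ := F (p + 1) (sgT p e.2)) (fun s => F_tr _ _)
      (fun s => F_hom0 _ (by omega)) hs]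

lemma bl_r (p : ℕ) (s : T2) {j k : ℕ} {t : T2} (ht : t ∈ H j) (h : j + k ≠ 6) :
    ∀ E : EL, (∀ e ∈ E, e.1.length = k) → bl p E s t = 0
  | [], _ => rfl
  | e :: E, hE => by
    simp [bl, bl_r p s ht h E fun e he => hE e (by simp [he]), H_zero (Lam_cm e.1)
      (fun s hs => Lam_hom _ hs (by rw [hE e (by simp)]; omega)) ht]

lemma comb_bl (p r k : ℕ) (hr : r + 1 + 2 * k = 16) (c : List (Fin 3) × List (ℕ × ℤ) → ℤ) (y : T2)
    (a : ℚ) (hc : ∀ e, (c e : ℚ) = a * F (p + 1) (sgT p e.2) y) (t : Tr) :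
    ∀ E : EL, (∀ e ∈ E, e.1.length = k) →
    F (r + 1) (comb E c (fun e => LamT e.1) t) = F (r + 1) t + a • bl p E y
  | [], _ => by simp [comb, bl]
  | e :: E, h => by
    change F _ (Tr.lin _ _ (comb E _ _ t)) = _
    rw [F_lin, comb_bl p r k hr c y a hc t E fun e he => h e (by simp [he]), hc,
      Lam_eq _ _ (by rw [h e (by simp)]; exact hr), bl, LinearMap.add_apply,
      LinearMap.smulRight_apply]
    module

lemma theta_eq (r : ℕ) (w : List (Fin 3)) (hr : r + 1 + 2 * w.length = 16) (d : ℤ) {E : EL}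
    (hE : ∀ e ∈ E, e.1.length = w.length) {p : ℕ} (hp : p = 3 + 2 * w.length) :
    F (r + 1) (theta p d E w) = ((p : ℚ) + 1) • (bl p E (nn w) - (d : ℚ) • Lam w) := by
  rw [theta, comb_bl p r _ hr _ (nn w) _ (fun e => (nT_cy w p hp).pr fun s => F_tr _ _) _ E hE,
    F_lin, Lam_eq _ _ hr, F_z]
  push_cast
  module

lemma theta_van (r : ℕ) (w : List (Fin 3)) (hr : r + 1 + 2 * w.length = 16) (d : ℤ) {E : EL}
    (hE : ∀ e ∈ E, e.1.length = w.length) {p : ℕ} (hp : p = 3 + 2 * w.length) {n : T2}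
    (h : (∀ s ∈ Cm _, F (r + 1) (theta p d E w) s = 0) → F (r + 1) (theta p d E w) n = 0) :
    bl p E (nn w) n = d * Lam w n := by
  rw [theta_eq r w hr d hE hp] at h
  have := h fun s hs => by simp [bl_cm' _ _ hs, Lam_cm _ _ hs]
  rw [LinearMap.smul_apply, smul_eq_zero, LinearMap.sub_apply, sub_eq_zero] at this
  exact this.resolve_left (by positivity)

/-- The non-symmetric form. -/
noncomputable def bt : T2 →ₗ[ℚ] T2 →ₗ[ℚ] ℚ :=
  (1 / 2 : ℚ) • bl 3 sg1 + (1 / 4 : ℚ) • bl 5 sg2 + (1 / 120 : ℚ) • bl 7 sg3 +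
    (1 / 2240 : ℚ) • bl 9 sg4

/-- The alternating form. -/
noncomputable def B : T2 →ₗ[ℚ] T2 →ₗ[ℚ] ℚ := bt - bt.flip

lemma B_apply (s t : T2) : B s t =
    1 / 2 * bl 3 sg1 s t + 1 / 4 * bl 5 sg2 s t + 1 / 120 * bl 7 sg3 s t + 1 / 2240 * bl 9 sg4 s t -
    (1 / 2 * bl 3 sg1 t s + 1 / 4 * bl 5 sg2 t s + 1 / 120 * bl 7 sg3 t s +
      1 / 2240 * bl 9 sg4 t s) := by
  simp [B, bt]

lemma B_self (s : T2) : B s s = 0 := by simp [B_apply]

lemma B_skew (s t : T2) : B s t = -B t s := by simp [B_apply]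

lemma B_cm {s : T2} (hs : s ∈ Cm _) (t : T2) : B s t = 0 := by
  simp [B_apply, bl_cm _ hs, bl_cm' _ _ hs]

lemma B_cm' (s : T2) {t : T2} (ht : t ∈ Cm _) : B s t = 0 := by rw [B_skew, B_cm ht, neg_zero]

lemma B_deg {i j : ℕ} {s t : T2} (hs : s ∈ H i) (ht : t ∈ H j) (h : i + j ≠ 6) : B s t = 0 := by
  have key : ∀ {i j : ℕ} {s t : T2}, s ∈ H i → t ∈ H j → i + j ≠ 6 → ∀ k E,
      (∀ e ∈ E, e.1.length = k) → bl (2 * k + 3) E s t = 0 := fun {i j s t} hs ht h k E hE => by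
    by_cases e : i = k
    · exact bl_r _ _ ht (by omega) E hE
    · rw [bl_l hs (by omega), LinearMap.zero_apply]
  have h' : j + i ≠ 6 := by omega
  rw [B_apply, key hs ht h 0 _ sg1_len, key hs ht h 1 _ sg2_len, key hs ht h 2 _ sg3_len,
    key hs ht h 3 _ sg4_len, key ht hs h' 0 _ sg1_len, key ht hs h' 1 _ sg2_len,
    key ht hs h' 2 _ sg3_len, key ht hs h' 3 _ sg4_len]
  simp

lemma B_two {s t : T2} (hs : s ∈ N 2) (ht : t ∈ N 4) : B s t = 1 / 120 * bl 7 sg3 s t := by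
  simp [B_apply, bl_l (N_H hs), bl_l (N_H ht)]

lemma B_nn (w : List (Fin 3)) {j : ℕ} (h : w.length + j = 6) (hw : w.length ≤ 3) {n : T2}
    (hn : n ∈ N j) : B (nn w) n = Lam w n := by
  have hs := nn_N (w := w) rfl
  have hW := mem_W w
  obtain e | e | e | e : w.length = 0 ∨ w.length = 1 ∨ w.length = 2 ∨ w.length = 3 := by omega
  all_goals rw [e] at hs hW h
  · obtain rfl := List.length_eq_zero_iff.1 e
    obtain rfl : j = 6 := by omega
    have := theta_van 15 [] rfl 2 sg1_len rfl (n := n) fun _ => by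
      rw [show 3 + 2 * [].length = 3 from rfl, isZ_eq chk_p1]; simp
    simp [B_apply, bl_l (N_H hs), bl_l (N_H hn)] at this ⊢
    linarith
  · obtain rfl : j = 5 := by omega
    have := theta_van 13 w (by omega) 4 (e ▸ sg2_len) (p := 5) (by omega) (n := n) fun _ => by
      rw [isZ_eq (List.all_eq_true.1 chk_p2 w hW)]; simp
    simp [B_apply, bl_l (N_H hs), bl_l (N_H hn), this]
  · obtain rfl : j = 4 := by omega
    have := theta_van 11 w (by omega) 120 (e ▸ sg3_len) (p := 7) (by omega) (n := n) fun h =>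
      vanN5_sound (List.all_eq_true.1 chk_p3 w hW) h hn
    simp [B_two hs hn, this]
  · obtain rfl : j = 3 := by omega
    have key : ∀ w : List (Fin 3), w.length = 3 → ∀ n ∈ N 3, bl 9 sg4 (nn w) n = 1120 * Lam w n :=
      fun w e n hn => theta_van 9 w (by omega) 1120 (by rw [e]; exact sg4_len) (by omega) fun h =>
        vanN4_sound (List.all_eq_true.1 chk_p4 w (by simpa only [e] using mem_W w)) h hn
    refine sub_eq_zero.1 (N_le' le_rfl (S := LinearMap.ker (B (nn w) - Lam w))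
      (fun s hs => by simp [B_cm' _ hs, Lam_cm _ _ hs]) (fun v hv => ?_) hn)
    have h1 := of_decide_eq_true (List.all_eq_true.1 (List.all_eq_true.1 chk_p4b w hW) v
      (by simpa only [hv] using mem_W v))
    have l := fun (u : List (Fin 3)) (hu : u.length = 3) => Lam_eq u 9 (by omega)
    have h2 := (nT_cy w 9 (by omega)).pr (u := LamT v) (l v hv ▸ Lam_cm v)
    have h3 := (nT_cy v 9 (by omega)).pr (u := LamT w) (l w e ▸ Lam_cm w)
    rw [l _ hv] at h2
    rw [l _ e] at h3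
    have h4 := congrArg (Int.cast : ℤ → ℚ) h1
    rw [Int.cast_add, h2, h3] at h4
    have ht := nn_N hv
    simp [B_apply, bl_l (N_H hs), bl_l (N_H ht), key w e _ ht, key v hv _ hs] at h4 ⊢
    linarith

lemma B_ne : B (nn [0, 0, 0]) (nn [0, 1, 2]) ≠ 0 := by
  have l := Lam_eq [0, 0, 0] 9 rfl
  have h := (nT_cy [0, 1, 2] 9 rfl).pr (u := LamT [0, 0, 0]) (l ▸ Lam_cm _)
  rw [B_nn _ (j := 3) rfl le_rfl (nn_N rfl), ← l]
  intro e
  rw [e, mul_zero, Int.cast_eq_zero] at h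
  exact of_decide_eq_true chk_ne h

lemma inv_one {D : Module.End ℚ T2} (hD : IsDer D) (h : ∀ i, D (gx i) ∈ len gx 2) {i j : ℕ}
    {s t : T2} (hs : s ∈ N i) (ht : t ∈ N j) : B (D s) t + B s (D t) = 0 := by
  by_cases e : i + j = 5
  swap
  · rw [B_deg (der_H (l := 0) hD h hs) (N_H ht) (by omega),
      B_deg (N_H hs) (der_H (l := 0) hD h ht) (by omega), add_zero]
  wlog hi : i ≤ 2 generalizing i j s t
  · have := this ht hs (by omega) (by omega)
    rw [B_skew (D s), B_skew s]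
    linarith
  refine deg2_ind (LinearMap.ker (B.flip t ∘ₗ LinearMap.applyₗ s + B s ∘ₗ LinearMap.applyₗ t))
    (fun a => ?_) (fun D hD => by simp [B_cm (hD s), B_cm' _ (hD t)]) hD h
  refine N_le' (by omega) (S := LinearMap.ker (B.flip t ∘ₗ Y a + B.flip (Y a t)))
    (fun s hs => by simp [B_cm hs, B_cm ((isDer_Y a).cm hs)]) (fun w hw => ?_) hs
  have h1 := B_nn (a :: w) (by simp; omega) (by simp; omega) ht
  have h2 := B_nn w (by omega) (by omega) (der_N0 (isDer_Y a) (fun i => by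
    rw [Y_eq]
    change der _ _ ∈ _
    rw [der_gx, Pi.single_apply]
    split_ifs
    exacts [len_succ _ cc_len, zero_mem _]) ht)
  simp only [nn, Lam, LinearMap.neg_apply, LinearMap.comp_apply] at h1
  simp [h1, h2]

lemma chkD_sound (m : ℕ) (w : List (Fin 3)) (hm : m + 2 * w.length = 12) (nu : Tr)
    (h0 : chkD m w nu 0 = true) (h1 : chkD m w nu 1 = true) (hnu : ∀ s ∈ Cm _, F m nu s = 0)
    {D : Module.End ℚ T2} (hD : IsDer D) (h : ∀ i, D (gx i) ∈ len gx m)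
    (he : ∑ i, (dL i (D (gx i)) - dR i (D (gx i))) ∈ Cm _) :
    Lam [] (D (nn w)) = Lam w (D (nn [])) := by
  have key : ∀ i, chkD m w nu i = true → F m nu (dL i (D (gx i)) - dR i (D (gx i))) +
      (Lam [] (V (15 - m) (ch i (nT w)) * D (gx i)) -
        Lam w (V 3 (ch i (nT [])) * D (gx i))) = 0 := fun i hi => by
    have := lieZ_sound _ _ hi (h i)
    rw [LinearMap.mem_ker, F_add, F_lin, LinearMap.add_apply, F_ad, LinearMap.add_apply,
      LinearMap.smul_apply, F_con, F_con, show m + 1 + (15 - m) = 16 by omega,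
      show m + 1 + 3 = m + 3 + 1 from rfl, Lam_eq w _ (by omega)] at this
    simpa [Lam, sub_eq_add_neg] using this
  have := hnu _ he
  rw [(nT_cy w (15 - m) (by omega)).der' hD (Lam_cm _), (nT_cy [] 3 rfl).der' hD (Lam_cm _)]
  rw [Fin.sum_univ_two, map_add] at this
  rw [Fin.sum_univ_two, Fin.sum_univ_two]
  linarith [key 0 h0, key 1 h1]

lemma thD_sound {n : T2} (hn : n ∈ N 4) (i : Fin 2) (h : allLie (fun t => vanN5 (thD i t)) 3 2 cT =
    true) {y : T2} (hy : y ∈ len gx 4) : bl 7 sg3 (derl (Pi.single i y) (nn [])) n +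
      120 * Lam [] (derl (Pi.single i y) n) = 0 := by
  let G : T2 →ₗ[ℚ] ℚ := ((bl 7 sg3).flip n ∘ₗ LinearMap.applyₗ (nn []) + (120 : ℚ) • Lam [] ∘ₗ
    LinearMap.applyₗ n) ∘ₗ derl ∘ₗ LinearMap.single ℚ (fun _ => T2) i
  refine len_AD (LinearMap.ker G) 3 1 (len_cc.trans ((span_singleton_le_iff_mem _ _).2 ?_)) hy
  refine V_cT ▸ allLie_sound _ _ 3 2 cT h fun t ht => ?_
  have hD : IsDer (derl (Pi.single i (V 5 t))) := isDer_der _
  have hx : ∀ j, derl (Pi.single i (V 5 t)) (gx j) = V 5 (dT i t j) := fun j =>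
    (der_gx _ _).trans (V_dT ..).symm
  have e : F 12 (thD i t) = (120 : ℚ) • Lam [] ∘ₗ derl (Pi.single i (V 5 t)) +
      (1 : ℚ) • bl 7 sg3 (derl (Pi.single i (V 5 t)) (nn [])) := by
    rw [thD, comb_bl 7 11 2 rfl _ (derl (Pi.single i (V 5 t)) (nn [])) 1 (fun e => ?_) _ _ sg3_len,
      F_lin, pull_sound 4 11 _ _ hD hx (Lam_cm []), F_z, zero_add]
    · rfl
    · rw [(nT_cy [] 3 rfl).der' hD (φ := F (7 + 1) (sgT 7 e.2)) fun s => F_tr _ _, pr_eq, F_con,
        sum_eq_single i _ (by simp), hx]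
      · simp [dT]
      · intro j _ hj
        simp [hx, dT, hj]
  have := vanN5_sound ht (fun s hs => by simp [e, bl_cm' _ _ hs, Lam_cm _ _ (hD.cm hs)]) hn
  rw [e] at this
  simpa [G, add_comm] using this

lemma inv_two {D : Module.End ℚ T2} (hD : IsDer D) {l : ℕ}
    (h : ∀ i, D (gx i) ∈ len gx (2 * l + 2))
    (he : ∑ i, (dL i (D (gx i)) - dR i (D (gx i))) ∈ Cm _) {j : ℕ} {s t : T2} (hs : s ∈ N j)
    (ht : t ∈ N 0) : B (D s) t + B s (D t) = 0 := by
  by_cases e : j + l = 5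
  swap
  · rw [B_deg (der_H hD h hs) (N_H ht) (by omega), B_deg (N_H hs) (der_H hD h ht) (by omega),
      add_zero]
  have hD' := der_N hD h (by omega) hs
  refine N_le' (S := LinearMap.ker (B (D s) + B s ∘ₗ D)) (by omega)
    (fun t ht => by simp [B_cm' _ ht, B_cm' _ (hD.cm ht)]) (fun w hw => ?_) ht
  obtain rfl := List.length_eq_zero_iff.1 hw
  change B (D s) (nn []) + B s (D (nn [])) = 0
  have hx := der_N1 hD h (nn_N (w := []) rfl)
  by_cases l0 : l = 0
  · subst l0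
    exact inv_one hD h hs (nn_N rfl)
  rw [B_skew, B_nn [] (by simp; omega) (by simp) hD']
  by_cases l1 : l = 1
  · subst l1
    obtain rfl : j = 4 := by omega
    have h0 := thD_sound hs 0 chk_l2a (h 0)
    have h1 := thD_sound hs 1 chk_l2b (h 1)
    rw [B_skew, B_two hx hs, der_split hD]
    simp only [Fin.sum_univ_two, LinearMap.add_apply, map_add]
    linarith
  clear hD'
  refine N_le' (S := LinearMap.ker (-(Lam [] ∘ₗ D) + B.flip (D (nn [])))) (by omega)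
    (fun s hs => by simp [B_cm hs, Lam_cm _ _ (hD.cm hs)]) (fun w hw => ?_) hs
  change -Lam [] (D (nn w)) + B (nn w) (D (nn [])) = 0
  rw [B_nn w (by omega) (by omega) hx, neg_add_eq_zero]
  have hW := mem_W w
  obtain rfl | rfl | rfl | rfl : l = 2 ∨ l = 3 ∨ l = 4 ∨ l = 5 := by omega
  · rw [show w.length = 3 by omega] at hW
    have := Bool.and_eq_true_iff.1 (List.all_eq_true.1 chk_d3 w hW)
    exact chkD_sound 6 w (by omega) z this.1 this.2 (by simp) hD h he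
  · rw [show w.length = 2 by omega] at hW
    have := Bool.and_eq_true_iff.1 (List.all_eq_true.1 chk_d4 w hW)
    exact chkD_sound 8 w (by omega) z this.1 this.2 (by simp) hD h he
  · obtain ⟨a, rfl⟩ := List.length_eq_one_iff.1 (show w.length = 1 by omega)
    have := Bool.and_eq_true_iff.1 (List.all_eq_true.1 chk_d5 a (List.mem_finRange a))
    exact chkD_sound 10 [a] rfl _ this.1 this.2 (fun s => F_tr _ _) hD h he
  · rw [List.length_eq_zero_iff.1 (show w.length = 0 by omega)]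

end Pool.Agent.Lib.MP_f9c34c_al
end

-- part Pool.Agent.Lib.MP_f9c34c_al.Coc
section

open Submodule Finset LieModule.Cohomology FreeLieAlgebra

attribute [local instance 100] LieRing.ofAssociativeRing

namespace Pool.Agent.Lib.MP_f9c34c_al

lemma hh_N {D : Module.End ℚ T4} (h : D ∈ Sy 2) : hh D ∈ N 0 := by
  rw [← smul_mem_iff (s := ((2 : ℕ) : ℚ) + 2) _ (by norm_num), ← hh_eq h, rho_UU]
  exact sum_mem fun i _ => gx_N i (rho_len _ (h.2.1 _))

variable {ι : Type*}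

lemma free_rec {p : FreeLieAlgebra ℚ ι → Prop} (h : ∀ i, p (of ℚ i)) (h0 : p 0)
    (ha : ∀ a b, p a → p b → p (a + b)) (hs : ∀ (c : ℚ) a, p a → p (c • a))
    (hl : ∀ a b, p a → p b → p ⁅a, b⁆) (z : FreeLieAlgebra ℚ ι) : p z :=
  free_ind ⟨⟨⟨⟨{z | p z}, ha _ _⟩, h0⟩, fun c a => hs c a⟩, hl _ _⟩ h z

lemma ideal_ind (Q : Submodule ℚ (FreeLieAlgebra ℚ ι)) {s : Set (FreeLieAlgebra ℚ ι)}
    (hs : ∀ e ∈ s, e ∈ Q) (h : ∀ i : ι, ∀ e ∈ Q, ⁅of ℚ i, e⁆ ∈ Q) {e : FreeLieAlgebra ℚ ι}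
    (he : e ∈ LieSubmodule.lieSpan ℚ (FreeLieAlgebra ℚ ι) s) : e ∈ Q :=
  LieSubmodule.mem_lieSpan.1 he ⟨Q, fun {x m} hm => free_rec (p := fun x => ∀ e ∈ Q, ⁅x, e⁆ ∈ Q) h
    (by simp) (fun a b ha hb e he => add_lie a b e ▸ add_mem (ha e he) (hb e he))
    (fun c a ha e he => smul_lie c a e ▸ smul_mem _ _ (ha e he))
    (fun a b ha hb e he => lie_lie a b e ▸ sub_mem (ha _ (hb e he)) (hb _ (ha e he))) x m hm⟩ hs

lemma free_ext {M : Type*} [AddCommGroup M] [Module ℚ M] [LieRingModule (FreeLieAlgebra ℚ ι) M]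
    [LieModule ℚ (FreeLieAlgebra ℚ ι) M] (c : twoCocycle ℚ (FreeLieAlgebra ℚ ι) M) (t : ι → M) :
    ∃ η : FreeLieAlgebra ℚ ι →ₗ[ℚ] M, (∀ i, η (of ℚ i) = t i) ∧
      ∀ x y, η ⁅x, y⁆ = c.1 x y + ⁅x, η y⁆ - ⁅y, η x⁆ := by
  let φ := lift ℚ fun i => LieAlgebra.ofProd c (of ℚ i, t i)
  have h : ∀ x, ((LieAlgebra.ofProd c).symm (φ x)).1 = x :=
    free_rec (by simp [φ]) (by simp) (fun a b ha hb => by simp [ha, hb])
      (fun r a ha => by simp [ha])
      (fun a b ha hb => by simp [LieAlgebra.bracket_ofTwoCocycle, ha, hb])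
  refine ⟨⟨⟨fun x => ((LieAlgebra.ofProd c).symm (φ x)).2, by simp⟩, by simp⟩, by simp [φ],
    fun x y => ?_⟩
  simp [LieAlgebra.bracket_ofTwoCocycle, h]

lemma bil_hom (G : FreeLieAlgebra ℚ ι →ₗ[ℚ] FreeLieAlgebra ℚ ι →ₗ[ℚ] ℚ)
    (h : ∀ j l, ∀ y ∈ len (of ℚ) j, ∀ z ∈ len (of ℚ) l, G y z = 0) (y z : FreeLieAlgebra ℚ ι) :
    G y z = 0 :=
  free_hom (LinearMap.ker (G.flip z))
    (fun j y hy => free_hom (LinearMap.ker (G y)) (fun l => h j l y hy) z) y

lemma B_congr {s s' t t' : T2} (h : s - s' ∈ Cm _) (h' : t - t' ∈ Cm _) : B s t = B s' t' := by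
  have h1 := B_cm h t
  have h2 := B_cm' s' h'
  simp only [map_sub, LinearMap.sub_apply] at h1 h2
  linarith

variable (Ψ : FreeLieAlgebra ℚ ι →ₗ⁅ℚ⁆ Module.End ℚ T4) (hΨ : ∀ i, Ψ (of ℚ i) ∈ Sy 2)
include hΨ

lemma psi_Sy : ∀ (k : ℕ) {f : FreeLieAlgebra ℚ ι}, f ∈ len (of ℚ) k → Ψ f ∈ Sy (2 * k + 2)
  | 0, _, hf => len_le0 (S := (Sy 2).comap Ψ.toLinearMap) hΨ hf
  | k + 1, _, hf => len_le (S := (Sy (2 * k + 2 + 2)).comap Ψ.toLinearMap) (fun i y hy => by
      rw [mem_comap, LieHom.coe_toLinearMap, Ψ.map_lie]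
      exact Sy_lie (hΨ i) (psi_Sy k hy)) hf

lemma psi_N : ∀ (k : ℕ) {f : FreeLieAlgebra ℚ ι}, f ∈ len (of ℚ) k → hh (Ψ f) ∈ N k
  | 0, _, hf => hh_N (psi_Sy Ψ hΨ 0 hf)
  | k + 1, _, hf => len_le (S := (N (k + 1)).comap (hh ∘ₗ Ψ.toLinearMap)) (fun i y hy => by
      have h := psi_Sy Ψ hΨ k hy
      have := add_mem (cm_N (hh_lie (hΨ i) h)) (sub_mem (der_N0 (isDer_del _) (del_len (hΨ i))
        (psi_N k hy)) (der_N1 (isDer_del _) (del_len h) (hh_N (hΨ i))))
      rwa [sub_add_cancel, ← Ψ.map_lie] at this) hf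

lemma exists_eta : ∃ η : FreeLieAlgebra ℚ ι →ₗ[ℚ] ℚ, (∀ k ≠ 7, ∀ f ∈ len (of ℚ) k, η f = 0) ∧
    ∀ f g, η ⁅f, g⁆ = B (hh (Ψ f)) (hh (Ψ g)) := by
  let c := B.compl₁₂ (hh ∘ₗ Ψ.toLinearMap) (hh ∘ₗ Ψ.toLinearMap)
  have hc : ∀ x y z, c x ⁅y, z⁆ = c ⁅x, y⁆ z + c y ⁅x, z⁆ := by
    refine free_rec (fun i y z => sub_eq_zero.1 ?_) (by simp) (fun a b ha hb y z => ?_)
      (fun r a ha y z => ?_) (fun a b ha hb y z => ?_)
    · refine bil_hom (LinearMap.mk₂ ℚ (fun y z => c (of ℚ i) ⁅y, z⁆ -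
        (c ⁅of ℚ i, y⁆ z + c y ⁅of ℚ i, z⁆)) (fun _ _ _ => by simp; ring)
        (fun _ _ _ => by simp; ring) (fun _ _ _ => by simp; ring) (fun _ _ _ => by simp; ring))
        (fun j l y hy z hz => ?_) y z
      change B (hh (Ψ _)) (hh (Ψ ⁅y, z⁆)) - (B (hh (Ψ ⁅of ℚ i, y⁆)) (hh (Ψ z)) +
        B (hh (Ψ y)) (hh (Ψ ⁅of ℚ i, z⁆))) = 0
      have sy := psi_Sy Ψ hΨ j hy
      have sz := psi_Sy Ψ hΨ l hz
      have ny := psi_N Ψ hΨ j hy
      have nz := psi_N Ψ hΨ l hz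
      have r : ∀ s : T2, s - s ∈ Cm _ := by simp
      have h1 := inv_one (isDer_del _) (del_len (hΨ i)) ny nz
      have h2 := inv_two (isDer_del _) (del_len sy) (del_es sy) nz (hh_N (hΨ i))
      have h3 := inv_two (isDer_del _) (del_len sz) (del_es sz) ny (hh_N (hΨ i))
      rw [B_skew] at h3
      rw [B_skew, B_skew (hh (Ψ z))] at h2
      rw [Ψ.map_lie, Ψ.map_lie, Ψ.map_lie, B_congr (r _) (hh_lie sy sz),
        B_congr (hh_lie (hΨ i) sy) (r _), B_congr (r _) (hh_lie (hΨ i) sz)]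
      simp only [map_sub, LinearMap.sub_apply]
      linarith
    · simp only [add_lie, map_add, LinearMap.add_apply, ha y z, hb y z]; abel
    · simp only [smul_lie, map_smul, LinearMap.smul_apply, ha y z, smul_add]
    · have h1 := ha b ⁅y, z⁆
      rw [leibniz_lie b y z, leibniz_lie a y z, map_add, map_add, ha, ha, hb, hb] at h1
      simp only [lie_lie a b, map_sub, LinearMap.sub_apply] at h1 ⊢
      linarith
  let c' : twoCochain ℚ (FreeLieAlgebra ℚ ι) (TrivialLieModule ℚ (FreeLieAlgebra ℚ ι) ℚ) :=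
    ⟨c, fun x => B_self _⟩
  obtain ⟨η, h0, h⟩ := free_ext ⟨c', (mem_twoCocycle_iff_of_trivial _ _ _ _).2 hc⟩ 0
  have h' : ∀ f g, η ⁅f, g⁆ = B (hh (Ψ f)) (hh (Ψ g)) := fun f g => by
    rw [h, trivial_lie_zero, trivial_lie_zero, add_zero, sub_zero]; rfl
  refine ⟨η, fun k hk => ?_, h'⟩
  rcases k with _ | k
  · exact len_le0 (S := LinearMap.ker η) h0
  · exact len_le (S := LinearMap.ker η) fun i y hy => (h' _ _).trans
      (B_deg (N_H (hh_N (hΨ i))) (N_H (psi_N Ψ hΨ k hy)) (by omega))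

end Pool.Agent.Lib.MP_f9c34c_al
end

-- part Pool.Agent.Lib.MP_f9c34c_al.Lift
section

open Submodule Finset LieModule.Cohomology FreeLieAlgebra

attribute [local instance 100] LieRing.ofAssociativeRing

namespace Pool.Agent.Lib.MP_f9c34c_al

/-- The quotient map as a morphism of Lie algebras. -/
def mkL {L : Type*} [LieRing L] [LieAlgebra ℚ L] (I : LieIdeal ℚ L) : L →ₗ⁅ℚ⁆ L ⧸ I :=
  { I.toSubmodule.mkQ with map_lie' := fun {x y} => LieSubmodule.Quotient.mk_bracket I x y }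

lemma mkL_eq_zero {L : Type*} [LieRing L] [LieAlgebra ℚ L] {I : LieIdeal ℚ L} {x : L} :
    mkL I x = 0 ↔ x ∈ I := LieSubmodule.Quotient.mk_eq_zero'

/-- The free Lie algebra on four generators. -/
abbrev LH : Type := FreeLieAlgebra ℚ (Fin 2 × Bool)

/-- The ideal of the symplectic class. -/
noncomputable abbrev II : LieIdeal ℚ (LH) := LieSubmodule.lieSpan ℚ (LH) {omega0 2}

/-- The map to the free associative algebra. -/
noncomputable def jj : LH →ₗ⁅ℚ⁆ T4 := lift ℚ gx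

@[simp] lemma jj_of (x : Fin 2 × Bool) : jj (of ℚ x) = gx x := lift_of_apply _ _

lemma om_mem : omega0 2 ∈ II := LieSubmodule.subset_lieSpan rfl

lemma jj_om : jj (omega0 2) = om := by simp [omega0, om]

lemma jj_len (n : ℕ) {z : LH} (hz : z ∈ len (of ℚ) n) : jj z ∈ len gx n :=
  map_len (φ := jj.toLinearMap) jj.map_lie (fun x => by simpa using len_zero x) n hz

lemma rho_II {z : LH} (hz : z ∈ II) : rho (jj z) = 0 :=
  ideal_ind (LinearMap.ker (rho.toLinearMap ∘ₗ jj.toLinearMap))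
    (by rintro _ rfl; simp [jj_om, om, rho_lie])
    (fun i e he => by
      have : rho (jj e) = 0 := he
      simp [rho_lie, this]) hz

variable {P : Type} [LieRing P] [LieAlgebra ℚ P] {pj : LH →ₗ⁅ℚ⁆ P}

variable (pj) in
/-- Presentations of the surface Lie algebra. -/
def Pres : Prop := Function.Surjective pj ∧ ∀ z, pj z = 0 ↔ z ∈ II

variable (pj) in
/-- Compatible pairs of derivations. -/
def Cp (D : LieDerivation ℚ P P) (E : Module.End ℚ T4) : Prop :=
  ∀ z, ∃ z', D (pj z) = pj z' ∧ E (jj z) = jj z'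

namespace Cp
variable {D D' : LieDerivation ℚ P P} {E E' : Module.End ℚ T4}

lemma add (h : Cp pj D E) (h' : Cp pj D' E') : Cp pj (D + D') (E + E') := fun z => by
  obtain ⟨a, h1, h2⟩ := h z
  obtain ⟨b, h3, h4⟩ := h' z
  exact ⟨a + b, by simp [h1, h3], by simp [h2, h4]⟩

lemma smul (h : Cp pj D E) (c : ℚ) : Cp pj (c • D) (c • E) := fun z => by
  obtain ⟨a, h1, h2⟩ := h z
  exact ⟨c • a, by simp [h1], by simp [h2]⟩

lemma lie (h : Cp pj D E) (h' : Cp pj D' E') : Cp pj ⁅D, D'⁆ ⁅E, E'⁆ := fun z => by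
  obtain ⟨a, h1, h2⟩ := h z
  obtain ⟨b, h3, h4⟩ := h' z
  obtain ⟨a', h5, h6⟩ := h' a
  obtain ⟨b', h7, h8⟩ := h b
  exact ⟨b' - a', by simp [h1, h3, h5, h7], by simp [Ring.lie_def, h2, h4, h6, h8]⟩

lemma of {t : Fin 2 × Bool → LH} (h : ∀ x, D (pj (FreeLieAlgebra.of ℚ x)) = pj (t x)) :
    Cp pj D (der fun x => jj (t x)) := by
  refine free_rec (fun x => ⟨t x, h x, by simp⟩) ⟨0, by simp, by simp⟩ ?_ ?_ ?_
  · rintro a b ⟨a', h1, h2⟩ ⟨b', h3, h4⟩
    exact ⟨a' + b', by simp [h1, h3], by simp [h2, h4]⟩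
  · rintro c a ⟨a', h1, h2⟩
    exact ⟨c • a', by simp [h1], by simp [h2]⟩
  · rintro a b ⟨a', h1, h2⟩ ⟨b', h3, h4⟩
    exact ⟨⁅a', b⁆ + ⁅a, b'⁆, by simp [h1, h3, sub_eq_add_neg, add_comm],
      by simp [(isDer_der _).br, h2, h4]⟩

lemma inner (hp : Pres pj) (h : Cp pj D E) (h' : Cp pj D' E')
    (e : mkL (LieDerivation.ad ℚ P).idealRange D = mkL _ D') :
    ∃ z : T2, ∀ x, rho (E (gx x)) = rho (E' (gx x)) + ⁅z, rho (gx x)⁆ := by
  rw [← sub_eq_zero, ← map_sub, mkL_eq_zero, LieDerivation.mem_ad_idealRange_iff] at e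
  obtain ⟨y, e⟩ := e
  obtain ⟨z, rfl⟩ := hp.1 y
  refine ⟨rho (jj z), fun x => ?_⟩
  obtain ⟨a, h1, h2⟩ := h (FreeLieAlgebra.of ℚ x)
  obtain ⟨b, h3, h4⟩ := h' (FreeLieAlgebra.of ℚ x)
  have := LieDerivation.congr_fun e (pj (FreeLieAlgebra.of ℚ x))
  rw [LieDerivation.sub_apply, h1, h3, LieDerivation.ad_apply_apply, ← pj.map_lie, ← map_sub,
    ← sub_eq_zero, ← map_sub] at this
  replace this := rho_II ((hp.2 _).1 this)
  rw [jj_of] at h2 h4
  simp only [map_sub, LieHom.map_lie, rho_lie, jj_of, sub_eq_zero] at this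
  rw [h2, h4, this, add_sub_cancel]

end Cp

/-- The image of the symplectic class under a derivation. -/
noncomputable def dom (t : Fin 2 × Bool → LH) : LH :=
  ∑ i : Fin 2, (⁅t (i, false), of ℚ (i, true)⁆ + ⁅of ℚ (i, false), t (i, true)⁆)

lemma exists_der (hp : Pres pj) (t : Fin 2 × Bool → LH) (h : dom t = 0) :
    ∃ D : LieDerivation ℚ P P, ∀ x, D (pj (of ℚ x)) = pj (t x) := by
  obtain ⟨η, h0, h1⟩ := free_ext (M := LH) 0 t
  have h2 : ∀ x y, η ⁅x, y⁆ = ⁅x, η y⁆ - ⁅y, η x⁆ := fun x y => by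
    rw [h1]; exact congrArg (· - _) (zero_add _)
  have h3 : II.toSubmodule ≤ II.toSubmodule.comap η := fun e he =>
    (ideal_ind (II.toSubmodule ⊓ II.toSubmodule.comap η) (by
      rintro _ rfl
      refine ⟨om_mem, ?_⟩
      have : η (omega0 2) = dom t := by
        simp only [omega0, dom, map_sum, h2, h0, sub_eq_neg_add, lie_skew]
      rw [SetLike.mem_coe, mem_comap, this, h]
      exact zero_mem _)
      (fun i e he => ⟨II.lie_mem he.1, by
        rw [SetLike.mem_coe, mem_comap, h2]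
        exact sub_mem (II.lie_mem he.2) (lie_mem_left _ _ II _ _ he.1)⟩) he).2
  obtain ⟨σ, hσ⟩ := pj.toLinearMap.exists_rightInverse_of_surjective
    (LinearMap.range_eq_top.2 hp.1)
  have h4 : ∀ z, (pj.toLinearMap ∘ₗ η ∘ₗ σ) (pj z) = pj (η z) := fun z => by
    have := (hp.2 _).2 (h3 ((hp.2 (σ (pj z) - z)).1 (by
      rw [map_sub, sub_eq_zero]; exact LinearMap.congr_fun hσ _)))
    rwa [map_sub, map_sub, sub_eq_zero] at this
  refine ⟨⟨pj.toLinearMap ∘ₗ η ∘ₗ σ, fun a b => ?_⟩, fun x => (h4 _).trans (congrArg pj (h0 x))⟩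
  obtain ⟨a, rfl⟩ := hp.1 a
  obtain ⟨b, rfl⟩ := hp.1 b
  rw [← pj.map_lie, h4, h4, h4]
  simp [h2]

/-- The projection to a homogeneous component. -/
noncomputable def PP (k : ℕ) : Module.End ℚ T4 := lin fun w => if w.length = k then wd w else 0

lemma PP_hom (k : ℕ) {q : ℕ} {s : T4} (hs : s ∈ Hom _ q) : PP k s = if q = k then s else 0 :=
  (Hom_ext (g := if q = k then LinearMap.id else 0)
    (fun w hw => by split_ifs with h <;> simp [PP, hw, h]) hs).trans (by split_ifs <;> rfl)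

lemma PP_lie (k : ℕ) (x : Fin 2 × Bool) (s : T4) : PP (k + 1) ⁅gx x, s⁆ = ⁅gx x, PP k s⁆ :=
  T_ext' (f := PP (k + 1) ∘ₗ LieModule.toEnd ℚ T4 T4 (gx x))
    (g := LieModule.toEnd ℚ T4 T4 (gx x) ∘ₗ PP k) (fun w => by
      simp only [LinearMap.comp_apply, LieModule.toEnd_apply_apply, Ring.lie_def, map_sub, gx,
        ← wd_append, PP, lin_wd]
      by_cases h : w.length = k
      · simp only [h, List.length_append, List.length_singleton, add_comm, if_true, wd_append]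
      · simp [h]) s

lemma PP_zero (x : Fin 2 × Bool) (s : T4) : PP 0 ⁅gx x, s⁆ = 0 :=
  T_ext' (f := PP 0 ∘ₗ LieModule.toEnd ℚ T4 T4 (gx x)) (g := 0) (fun w => by
    simp [Ring.lie_def, gx, ← wd_append, PP]) s

lemma om_len : omega0 2 ∈ len (of ℚ) 1 := sum_mem fun _ _ => len_succ _ (len_zero _)

lemma II_four {e : LH} (he : e ∈ II) : ∃ s : Fin 2 × Bool → LH,
    (∀ y, s y ∈ II ∧ s y ∈ len (of ℚ) 2) ∧ PP 4 (jj e) = ∑ y, ⁅gx y, jj (s y)⁆ := by
  let J : ℕ → Submodule ℚ (LH) := fun k => II.toSubmodule ⊓ len (of ℚ) k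
  let Λ : (Fin 2 × Bool → LH) →ₗ[ℚ] T4 :=
    ∑ y, LieModule.toEnd ℚ T4 T4 (gx y) ∘ₗ jj.toLinearMap ∘ₗ LinearMap.proj y
  have hom : ∀ k, PP k (jj (omega0 2)) = if 2 = k then jj (omega0 2) else 0 := fun k =>
    PP_hom k (len_Hom 1 (jj_len 1 om_len))
  obtain ⟨s, h1, h2⟩ := (ideal_ind ((LinearMap.ker (PP 0 ∘ₗ jj.toLinearMap) ⊓ ⨅ k,
    ((J k).map jj.toLinearMap).comap (PP (k + 1) ∘ₗ jj.toLinearMap)) ⊓
      ((pi Set.univ fun _ => J 2).map Λ).comap (PP 4 ∘ₗ jj.toLinearMap)) (by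
    rintro _ rfl
    refine ⟨⟨by simp [hom], (mem_iInf _).2 fun k => ?_⟩, ⟨0, zero_mem _, by simp [hom]⟩⟩
    rw [mem_comap, LinearMap.comp_apply, LieHom.coe_toLinearMap, hom]
    split_ifs with h
    · obtain rfl : k = 1 := by omega
      exact mem_map_of_mem ⟨om_mem, om_len⟩
    · exact zero_mem _) (fun i e he => by
    have h := (mem_iInf _).1 he.1.2
    refine ⟨⟨by simp [PP_zero], (mem_iInf _).2 fun k => ?_⟩, ?_⟩
    · rw [mem_comap, LinearMap.comp_apply, LieHom.coe_toLinearMap, jj.map_lie, jj_of, PP_lie]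
      rcases k with _ | k
      · rw [show PP 0 (jj e) = 0 from he.1.1, lie_zero]
        exact zero_mem _
      · obtain ⟨u, hu, hu'⟩ := h k
        exact ⟨⁅of ℚ i, u⁆, ⟨II.lie_mem hu.1, len_succ i hu.2⟩,
          (jj.map_lie _ _).trans (congrArg₂ _ (jj_of i) hu')⟩
    · obtain ⟨u, hu, hu'⟩ := h 2
      refine ⟨Pi.single i u, fun y _ => ?_, ?_⟩
      · rw [Pi.single_apply]
        split_ifs
        exacts [hu, zero_mem _]
      · rw [LinearMap.comp_apply, LieHom.coe_toLinearMap, jj.map_lie, jj_of, PP_lie,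
          ← show jj u = PP 3 (jj e) from hu', LinearMap.sum_apply, sum_eq_single i _ (by simp)]
        · simp
        · intro y _ hy
          simp [hy]) he).2
  exact ⟨s, fun y => h1 y trivial, by simpa [Λ] using h2.symm⟩

lemma exists_lift (hp : Pres pj) (D : LieDerivation ℚ P P)
    (hD : ∀ x, D (pj (of ℚ x)) ∈ len (fun x => pj (of ℚ x)) 2) : ∃ E ∈ Sy 2, Cp pj D E := by
  choose t ht ht' using fun x => len_map (x := of ℚ) pj 2 (hD x)
  have e : ∀ t : Fin 2 × Bool → LH, der (fun x => jj (t x)) om = jj (dom t) := fun t => by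
    simp only [om, dom, map_sum, (isDer_der _).br, der_gx, map_add, LieHom.map_lie, jj_of]
  have h1 : dom t ∈ II := (hp.2 _).1 (by
    have := congrArg D ((hp.2 _).2 om_mem)
    simp only [omega0, map_sum, LieHom.map_lie, D.apply_lie_eq_add, map_zero] at this
    simp only [dom, map_sum, map_add, LieHom.map_lie, ← this]
    exact sum_congr rfl fun i _ => (add_comm _ _).trans (congrArg₂ (· + ·)
      (congrArg _ (ht' _)) (congrArg (⁅·, _⁆) (ht' _))))
  obtain ⟨s, hs, h2⟩ := II_four h1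
  rw [PP_hom 4 (q := 4) (len_Hom 3 (jj_len 3 (z := dom t) (sum_mem fun i _ => add_mem
    (lie_len 2 0 (ht _) (len_zero _)) (len_succ _ (ht _))))), if_pos rfl] at h2
  let t' : Fin 2 × Bool → LH := fun x => t x + if x.2 then -s (x.1, false) else s (x.1, true)
  refine ⟨der fun x => jj (t' x), Sy_two (isDer_der _) (fun x => ?_) ?_, Cp.of fun x => ?_⟩
  · rw [der_gx]
    refine jj_len 2 (add_mem (ht x) ?_)
    split_ifs
    exacts [neg_mem (hs _).2, (hs _).2]
  · have : dom t' = dom t - ∑ y, ⁅of ℚ y, s y⁆ := by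
      simp only [dom, t', Fintype.sum_prod_type, Fintype.sum_bool, ← sum_sub_distrib]
      refine sum_congr rfl fun i _ => ?_
      simp only [add_lie, lie_add, Bool.false_eq_true, if_true, if_false, lie_neg,
        ← lie_skew (s _)]
      abel
    rw [e, this, map_sub, h2, map_sum]
    simp
  · have : ∀ y, pj (s y) = 0 := fun y => (hp.2 _).2 (hs y).1
    rw [map_add, ← ht' x]
    split_ifs <;> simp [this]

end Pool.Agent.Lib.MP_f9c34c_al
end

-- part Pool.Agent.Lib.MP_f9c34c_al.Main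
section

open Submodule Finset FreeLieAlgebra

attribute [local instance 100] LieRing.ofAssociativeRing

namespace Pool.Agent.Lib.MP_f9c34c_al

/-- The generators of the first kind. -/
noncomputable abbrev la (i : Fin 2) : LH := of ℚ (i, false)

/-- The generators of the second kind. -/
noncomputable abbrev lb (i : Fin 2) : LH := of ℚ (i, true)

/-- The bracket of the generators of the first kind. -/
noncomputable def lc : LH := ⁅la 0, la 1⁆

/-- The values of the derivation with four leaves of the first kind. -/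
noncomputable def tx (x : Fin 2 × Bool) : LH :=
  if x.2 then (if x.1 = 0 then ⁅la 1, lc⁆ else -⁅la 0, lc⁆) else 0

/-- The values of the derivations with three leaves of the first kind. -/
noncomputable def ty (j k : Fin 2) (x : Fin 2 × Bool) : LH :=
  if x.2 then (if x.1 = k then ⁅lb j, lc⁆ else 0) +
    (if x.1 = 0 then -⁅la 1, ⁅lb j, la k⁆⁆ else ⁅la 0, ⁅lb j, la k⁆⁆)
  else if x.1 = j then ⁅la k, lc⁆ else 0

lemma lc_len : lc ∈ len (of ℚ) 1 := len_succ _ (len_zero _)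

lemma tx_len (x : Fin 2 × Bool) : tx x ∈ len (of ℚ) 2 := by
  rw [tx]
  split_ifs
  exacts [len_succ _ lc_len, neg_mem (len_succ _ lc_len), zero_mem _]

lemma ty_len (j k : Fin 2) (x : Fin 2 × Bool) : ty j k x ∈ len (of ℚ) 2 := by
  have := fun i => len_succ (x := of ℚ) (i, false) (len_succ (j, true) (len_zero (k, false)))
  have h := fun y => len_succ y lc_len
  rw [ty]
  split_ifs
  exacts [add_mem (h _) (neg_mem (this _)), add_mem (h _) (this _),
    add_mem (zero_mem _) (neg_mem (this _)), add_mem (zero_mem _) (this _), h _, zero_mem _]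

lemma tx_dom : dom tx = 0 := by
  have := lie_lie (la 0) (la 1) lc
  rw [← lc, lie_self] at this
  simp only [dom, tx, Fin.sum_univ_two, if_true, Bool.false_eq_true, if_false, zero_lie, zero_add,
    one_ne_zero, lie_neg]
  rw [← sub_eq_add_neg, ← this]

lemma ty_dom (j k : Fin 2) : dom (ty j k) = 0 := by
  have h1 := lie_lie (la 0) (la 1) ⁅lb j, la k⁆
  have h2 := leibniz_lie (lb j) (la k) lc
  rw [← lc, ← lie_skew] at h1
  have h3 : ∑ i, ⁅la i, if i = k then ⁅lb j, lc⁆ else 0⁆ = ⁅la k, ⁅lb j, lc⁆⁆ := by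
    rw [sum_eq_single k (fun i _ h => by rw [if_neg h, lie_zero]) (by simp), if_pos rfl]
  have h4 : ∑ i, ⁅if i = j then ⁅la k, lc⁆ else 0, lb i⁆ = -⁅lb j, ⁅la k, lc⁆⁆ := by
    rw [sum_eq_single j (fun i _ h => by rw [if_neg h, zero_lie]) (by simp), if_pos rfl, lie_skew]
  simp only [dom, ty, if_true, Bool.false_eq_true, if_false, lie_add, sum_add_distrib, h3, h4]
  rw [Fin.sum_univ_two, if_pos rfl, if_neg one_ne_zero, h2, lie_neg, neg_eq_iff_eq_neg.1 h1]
  abel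

variable {P : Type} [LieRing P] [LieAlgebra ℚ P] {pj : LH →ₗ⁅ℚ⁆ P}

variable (pj) in
/-- The subalgebra generated by the generators of the first kind. -/
noncomputable def AA : LieSubalgebra ℚ P :=
  LieSubalgebra.lieSpan ℚ _ (Set.range fun i => pj (la i))

lemma la_AA (i : Fin 2) : pj (la i) ∈ AA pj := LieSubalgebra.subset_lieSpan ⟨i, rfl⟩

lemma lc_AA : pj lc ∈ AA pj := by
  rw [lc, pj.map_lie]
  exact (AA pj).lie_mem (la_AA 0) (la_AA 1)

variable (pj) in
/-- Derivations that kill the first generators and send the others to the subalgebra. -/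
def NN (D : LieDerivation ℚ P P) : Prop :=
  (∀ i, D (pj (la i)) = 0) ∧ ∀ i, D (pj (lb i)) ∈ AA pj

variable {D D' Z : LieDerivation ℚ P P}

lemma NN.kill (h : NN pj D) {z : P} (hz : z ∈ AA pj) : D z = 0 :=
  LieDerivation.eqOn_lieSpan (D2 := 0) (by rintro _ ⟨i, rfl⟩; exact h.1 i) hz

lemma NN.comm (hp : Pres pj) (h : NN pj D) (h' : NN pj D') : ⁅D, D'⁆ = 0 := by
  ext y
  obtain ⟨z, rfl⟩ := hp.1 y
  refine free_rec (p := fun z => ⁅D, D'⁆ (pj z) = 0) ?_ (by rw [map_zero, map_zero])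
    (fun a b ha hb => by rw [map_add, map_add, ha, hb, add_zero])
    (fun c a ha => by rw [map_smul, map_smul, ha, smul_zero])
    (fun a b ha hb => by rw [pj.map_lie, LieDerivation.apply_lie_eq_add, ha, hb]; simp) z
  rintro ⟨i, _ | _⟩
  · rw [LieDerivation.commutator_apply, h.1, h'.1]; simp
  · rw [LieDerivation.commutator_apply, h.kill (h'.2 i), h'.kill (h.2 i), sub_zero]

lemma NN.lie (h : NN pj D) {j k : Fin 2} (hZ : ∀ x, Z (pj (of ℚ x)) = pj (ty j k x)) :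
    NN pj ⁅Z, D⁆ := by
  have h1 : ∀ i, Z (pj (la i)) ∈ AA pj := fun i => by
    rw [hZ, ty, if_neg Bool.false_ne_true]
    split_ifs
    · rw [pj.map_lie]; exact (AA pj).lie_mem (la_AA _) lc_AA
    · rw [map_zero]; exact zero_mem _
  have h2 : ∀ z ∈ AA pj, Z z ∈ AA pj := fun z hz => by
    induction hz using LieSubalgebra.lieSpan_induction with
    | mem x hx => obtain ⟨i, rfl⟩ := hx; exact h1 i
    | zero => rw [map_zero]; exact zero_mem _
    | add x y _ _ hx hy => rw [map_add]; exact add_mem hx hy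
    | smul t x _ hx => rw [map_smul]; exact (AA pj).smul_mem t hx
    | lie x y h h' hx hy =>
      rw [Z.apply_lie_eq_add]; exact add_mem ((AA pj).lie_mem h hy) ((AA pj).lie_mem hx h')
  refine ⟨fun i => ?_, fun i => ?_⟩
  · rw [LieDerivation.commutator_apply, h.1, h.kill (h1 i), map_zero, sub_zero]
  · rw [LieDerivation.commutator_apply]
    refine sub_mem (h2 _ (h.2 i)) ?_
    have e : ∀ i, D (pj ⁅la i, ⁅lb j, la k⁆⁆) ∈ AA pj := fun i => by
      simp only [pj.map_lie, D.apply_lie_eq_add, h.1, lie_zero, zero_lie, zero_add, add_zero]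
      exact (AA pj).lie_mem (la_AA _) ((AA pj).lie_mem (h.2 j) (la_AA _))
    rw [hZ, ty, if_pos rfl, map_add, map_add]
    refine add_mem ?_ ?_
    · split_ifs
      · rw [pj.map_lie, D.apply_lie_eq_add, h.kill lc_AA, lie_zero, zero_add]
        exact (AA pj).lie_mem (h.2 j) lc_AA
      · rw [map_zero, map_zero]; exact zero_mem _
    · split_ifs
      · rw [map_neg, map_neg]; exact neg_mem (e 1)
      · exact e 0

lemma rho_lc : rho (jj lc) = cc := by simp [lc, cc, rho_lie]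

theorem main (hp : Pres pj) {ι : Type}
    (d : ι → LieDerivation ℚ P P ⧸ (LieDerivation.ad ℚ P).idealRange)
    (hd : (span ℚ (Set.range d) : Set _) = hdeg (fun x => pj (of ℚ x)) 2)
    (R : Set (FreeLieAlgebra ℚ ι)) (hR : ∀ r ∈ R, r ∈ ⨆ k ≠ 7, len (of ℚ) k)
    (Φ : (FreeLieAlgebra ℚ ι ⧸ LieSubmodule.lieSpan ℚ (FreeLieAlgebra ℚ ι) R) →ₗ⁅ℚ⁆
      LieDerivation ℚ P P ⧸ (LieDerivation.ad ℚ P).idealRange)
    (hΦ : ∀ i, Φ (mkL _ (of ℚ i)) = d i) :
    ∃ z ∈ len (of ℚ) 7, z ∉ LieSubmodule.lieSpan ℚ (FreeLieAlgebra ℚ ι) R ∧ Φ (mkL _ z) = 0 := by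
  have h0 : ∀ i, d i ∈ hdeg (fun x => pj (of ℚ x)) 2 := fun i => hd ▸ subset_span ⟨i, rfl⟩
  choose D hD hD' using h0
  choose E hE hE' using fun i => exists_lift hp (D i) (hD i)
  let Θ := lift ℚ D
  let Ψ := lift ℚ E
  let q := mkL (LieDerivation.ad ℚ P).idealRange
  have hΨ : ∀ i, Ψ (of ℚ i) ∈ Sy 2 := fun i => by simpa [Ψ] using hE i
  have hC : ∀ f, Cp pj (Θ f) (Ψ f) := free_rec (fun i => by simpa [Θ, Ψ] using hE' i)
    (fun z => ⟨0, by simp, by simp⟩) (fun a b ha hb => by simpa using ha.add hb)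
    (fun c a ha => by simpa using ha.smul c) (fun a b ha hb => by simpa using ha.lie hb)
  have hq : ∀ f, Φ (mkL _ f) = q (Θ f) := LieHom.congr_fun (hom_ext (F₁ := Φ.comp (mkL _))
    (F₂ := q.comp Θ) fun i => (hΦ i).trans ((hD' i).trans (congrArg q (lift_of_apply D i).symm)))
  have hf : ∀ t : Fin 2 × Bool → LH, (∀ x, t x ∈ len (of ℚ) 2) → dom t = 0 →
      ∃ f ∈ len (of ℚ) 0, ∃ Z : LieDerivation ℚ P P, (∀ x, Z (pj (of ℚ x)) = pj (t x)) ∧
        q (Θ f) = q Z ∧ ∃ z : T2, ∀ x, rho (Ψ f (gx x)) = rho (jj (t x)) + ⁅z, rho (gx x)⁆ :=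
      fun t h1 h2 => by
    obtain ⟨Z, hZ⟩ := exists_der hp t h2
    have : q Z ∈ span ℚ (Set.range d) := by
      rw [← SetLike.mem_coe, hd]
      exact ⟨Z, fun x => (hZ x).symm ▸ map_len (φ := pj.toLinearMap) pj.map_lie
        (len_zero (x := fun x => pj (of ℚ x))) 2 (h1 x), rfl⟩
    obtain ⟨f, h3, h4⟩ := len_map (x := of ℚ) (Φ.comp (mkL _)) 0
      (show q Z ∈ _ by simpa [len, hΦ] using this)
    have h5 : q (Θ f) = q Z := (hq f).symm.trans h4
    exact ⟨f, h3, Z, hZ, h5, by simpa using (hC f).inner hp (Cp.of hZ) h5⟩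
  obtain ⟨fx, x1, Zx, x2, x3, zx, x4⟩ := hf tx tx_len tx_dom
  choose fy y1 Zy y2 y3 zy y4 using fun s => hf _ (ty_len (yj s) (yk s)) (ty_dom _ _)
  let g : List (Fin 3) → FreeLieAlgebra ℚ ι := fun w => w.foldr (fun s u => ⁅fy s, u⁆) fx
  have hg : ∀ w, g w ∈ len (of ℚ) w.length ∧ (∃ Z, NN pj Z ∧ q (Θ (g w)) = q Z) ∧
      hh (Ψ (g w)) - (1 / 2 : ℚ) • nn w ∈ Cm _ := fun w => by
    induction w with
    | nil =>
      refine ⟨x1, ⟨Zx, ⟨fun i => (x2 _).trans (map_zero pj), fun i => ?_⟩, x3⟩, ?_⟩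
      · rw [x2, tx, if_pos rfl]
        split_ifs
        · rw [pj.map_lie]; exact (AA pj).lie_mem (la_AA _) lc_AA
        · rw [map_neg, pj.map_lie]; exact neg_mem ((AA pj).lie_mem (la_AA _) lc_AA)
      · have := hh_eq (psi_Sy Ψ hΨ 0 x1)
        rw [← smul_mem_iff (s := (4 : ℚ)) _ (by norm_num), smul_sub, show (4 : ℚ) • hh (Ψ (g [])) =
          rho (UU (Ψ fx)) by rw [this]; norm_num [g], rho_UU]
        convert sub_mem (cm_mem (gx 1) (cc * gx 0)) (cm_mem (gx 0) (cc * gx 1)) using 1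
        simp only [Fin.sum_univ_two, x4, tx, rho_b, lie_zero, add_zero, if_true, one_ne_zero,
          if_false, map_neg, LieHom.map_lie, rho_lie, rho_lc, jj_of, rho_a, nn, smul_smul]
        rw [show (4 * (1 / 2) : ℚ) = 2 by norm_num, two_smul]
        simp only [cc, Ring.lie_def]
        noncomm_ring
    | cons s w ih =>
      obtain ⟨i1, ⟨Z, i2, i3⟩, i4⟩ := ih
      refine ⟨lie_len 0 _ (y1 s) i1, ⟨_, i2.lie (y2 s), ?_⟩, ?_⟩
      · change q (Θ ⁅fy s, g w⁆) = _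
        rw [Θ.map_lie, q.map_lie, q.map_lie, y3, i3]
      · have e1 : hh (Ψ (fy s)) = 0 := hh_zero fun i => by
          rw [y4, ty, if_pos rfl]
          split_ifs <;> simp [rho_lie]
        have e2 : del (Ψ (fy s)) = Y s + der fun i => ⁅zy s, gx i⁆ :=
          (isDer_del _).ext ((isDer_Y s).add (isDer_der _)) fun i => by
            rw [del_gx, y4, Y_eq, LinearMap.add_apply, der_gx, rho_a, ty,
              if_neg Bool.false_ne_true]
            refine congrArg (· + _) ((?_ : _ = _).trans (der_gx _ i).symm)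
            rw [Pi.single_apply]
            split_ifs <;> simp [rho_lie, rho_lc]
        have := add_mem (add_mem (hh_lie (psi_Sy Ψ hΨ 0 (y1 s)) (psi_Sy Ψ hΨ _ i1))
          (der_inner (zy s) (hh (Ψ (g w))))) ((isDer_Y s).cm i4)
        rw [e1, e2, ← Ψ.map_lie] at this
        convert this using 1
        simp only [nn, map_zero, map_sub, map_smul, LinearMap.add_apply, g, List.foldr_cons]
        abel
  obtain ⟨η, e1, e2⟩ := exists_eta Ψ hΨ
  obtain ⟨a1, ⟨Z, a2, a3⟩, a4⟩ := hg [0, 0, 0]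
  obtain ⟨b1, ⟨Z', b2, b3⟩, b4⟩ := hg [0, 1, 2]
  refine ⟨⁅g [0, 0, 0], g [0, 1, 2]⁆, lie_len 3 3 a1 b1, fun h => B_ne ?_, ?_⟩
  · have : η ⁅g [0, 0, 0], g [0, 1, 2]⁆ = 0 := by
      generalize ⁅g [0, 0, 0], g [0, 1, 2]⁆ = u at h
      induction h using LieSubmodule.lieSpan_induction with
      | mem x hx =>
        exact (iSup₂_le fun k hk => e1 k hk : _ ≤ LinearMap.ker η) (hR x hx)
      | zero => exact map_zero η
      | add x y _ _ hx hy => rw [map_add, hx, hy, add_zero]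
      | smul t x _ hx => rw [map_smul, hx, smul_zero]
      | lie x y hy _ =>
        obtain ⟨z, hz⟩ := (hC y).inner hp (hC 0) (by
          rw [← hq, ← hq, mkL_eq_zero.2 hy, map_zero (mkL _)])
        rw [e2, hh_zero (D := Ψ y) fun i => by simp [hz], map_zero]
    rw [e2, B_congr a4 b4] at this
    simpa using this
  · rw [hq, Θ.map_lie, q.map_lie, a3, b3, ← q.map_lie, a2.comm hp b2, map_zero]

end Pool.Agent.Lib.MP_f9c34c_al
end
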