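import Mathlib.Data.List.FinRange
import Mathlib.Algebra.Ring.Int.Defs

namespace Pool.Agent.Lib.MP_f9c34c_al

/-- Binary trees of integers; they encode integer functions on words in two letters. -/
inductive Tr where
  | z : Tr
  | lf : ℤ → Tr
  | nd : Tr → Tr → Tr

namespace Tr

/-- Evaluate a tree before continuing. -/
noncomputable def frc {α : Type} (t : Tr) (k : Tr → α) : α :=
  Tr.rec (k z) (fun a => k (lf a)) (fun a b _ _ => k (nd a b)) t

/-- A node, pruned when both children vanish. -/
noncomputable def mk (l r : Tr) : Tr :=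
  Tr.rec (Tr.rec z (fun b => nd z (lf b)) (fun a b _ _ => nd z (nd a b)) r)
    (fun a => frc r (nd (lf a))) (fun a b _ _ => frc r (nd (nd a b))) l

/-- A nonnegative leaf. -/
noncomputable def mkp (n : ℕ) : Tr := Nat.rec z (fun p _ => lf (Int.ofNat (Nat.succ p))) n

/-- A negative leaf. -/
noncomputable def mkn (n : ℕ) : Tr :=
  Nat.rec (lf (Int.negSucc 0)) (fun p _ => lf (Int.negSucc (Nat.succ p))) n

/-- A leaf. -/
noncomputable def mkl (c : ℤ) : Tr := Int.rec mkp mkn c

/-- The first child. -/
noncomputable def c0 (t : Tr) : Tr := Tr.rec z (fun a => lf a) (fun a _ _ _ => a) t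

/-- The second child. -/
noncomputable def c1 (t : Tr) : Tr := Tr.rec z (fun a => lf a) (fun _ b _ _ => b) t

/-- The child at a letter. -/
noncomputable def ch (a : Fin 2) (t : Tr) : Tr := Nat.rec (c0 t) (fun _ _ => c1 t) a.val

/-- The value at the empty word. -/
noncomputable def root (t : Tr) : ℤ := Tr.rec 0 (fun a => a) (fun _ _ x _ => x) t

/-- Add a constant. -/
noncomputable def addc (x : ℤ) (s : Tr) : Tr :=
  Tr.rec (mkl x) (fun a => mkl (Int.add a x)) (fun _ _ l r => mk l r) s

/-- The sum. -/
noncomputable def add (t : Tr) : Tr → Tr :=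
  Tr.rec (fun s => s) (fun b s => addc b s)
    (fun a b l r s => Tr.rec (nd a b) (fun c => mk (l (lf c)) (r (lf c)))
      (fun l' r' _ _ => mk (l l') (r r')) s) t

/-- `s + c * t`. -/
noncomputable def lin (c : ℤ) (t : Tr) : Tr → Tr :=
  Tr.rec (fun s => s) (fun b s => addc (Int.mul c b) s)
    (fun _ _ l r s => frc s fun s => mk (l (c0 s)) (r (c1 s))) t

/-- Test for the zero tree. -/
noncomputable def isZ (t : Tr) : Bool := Tr.rec true (fun _ => false) (fun _ _ _ _ => false) t

/-- Put a letter in front. -/
noncomputable def pre (a : Fin 2) (t : Tr) : Tr := Nat.rec (mk t z) (fun _ _ => mk z t) a.val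

/-- Put a letter at the end. -/
noncomputable def app (a : Fin 2) (p : ℕ) : Tr → Tr :=
  Nat.rec (fun t => pre a t) (fun _ ih t =>
    Tr.rec z (fun b => mk (ih (lf b)) (ih (lf b))) (fun l r _ _ => mk (ih l) (ih r)) t) p

/-- Exchange the first two letters. -/
noncomputable def zip (l r : Tr) : Tr :=
  Tr.rec (Tr.rec z (fun b => mk (mk z (lf b)) (mk z (lf b)))
      (fun c d _ _ => mk (mk z c) (mk z d)) r)
    (fun a => mk (mk (lf a) (c0 r)) (mk (lf a) (c1 r)))
    (fun a b _ _ => Tr.rec (mk (mk a z) (mk b z)) (fun c => mk (mk a (lf c)) (mk b (lf c)))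
      (fun c d _ _ => mk (mk a c) (mk b d)) r) l

/-- Rotation of words of length `p + 1`. -/
noncomputable def rot (p : ℕ) : Tr → Tr :=
  Nat.rec (fun t => t) (fun _ ih t =>
    Tr.rec z (fun b => lf b) (fun l r _ _ => zip (ih l) (ih r)) t) p

/-- Add the first `k` rotations. -/
noncomputable def cycA (p k : ℕ) : Tr → Tr → Tr :=
  Nat.rec (fun _ s => s) (fun _ ih t s => frc t fun t => frc (add t s) (ih (rot p t))) k

/-- The sum of all rotations, for words of length `p + 1`. -/
noncomputable def cyc (p : ℕ) (t : Tr) : Tr := cycA p (Nat.succ p) t z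

/-- Contraction along the first `q` letters, added to the last argument. -/
noncomputable def con (q : ℕ) : Tr → Tr → Tr → Tr :=
  Nat.rec (fun u t s => lin (root u) t s) (fun _ ih u t s =>
    Tr.rec s (fun b => frc t fun t => frc (ih (lf b) (c0 t) s) (ih (lf b) (c1 t)))
      (fun l r _ _ => Tr.rec s (fun b => frc (ih l (lf b) s) (ih r (lf b)))
        (fun l' r' _ _ => frc (ih l l' s) (ih r r')) t) u) q

/-- The product; the first factor has depth `q`. -/
noncomputable def mulT (q : ℕ) : Tr → Tr → Tr :=
  Nat.rec (fun u t => lin (root u) t z) (fun _ ih u t =>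
    Tr.rec z (fun b => mk (ih (lf b) t) (ih (lf b) t)) (fun l r _ _ => mk (ih l t) (ih r t)) u) q

/-- The commutator with a letter. -/
noncomputable def ad (a : Fin 2) (p : ℕ) (t : Tr) : Tr :=
  frc t fun t => lin (-1) (app a p t) (pre a t)

/-- Test that a functional vanishes on the brackets of length `p + 1`. -/
noncomputable def lieZ (p : ℕ) : Tr → Bool :=
  Nat.rec (fun t => isZ (c0 t) && isZ (c1 t)) (fun p ih t =>
    Tr.rec true (fun _ => false) (fun l r _ _ => frc (rot (Nat.succ p) (nd l r)) fun u =>
      ih (lin (-1) (c0 u) l) && ih (lin (-1) (c1 u) r)) t) p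

/-- A single word given by the binary digits of a number. -/
noncomputable def one (c : ℤ) (n p : ℕ) : Tr :=
  Nat.rec (mkl c) (fun p ih => Bool.rec (mk ih z) (mk z ih) (Nat.testBit n p)) p

/-- The tree of a list of coded words with coefficients. -/
noncomputable def ofL (p : ℕ) (l : List (ℕ × ℤ)) : Tr :=
  List.rec z (fun a _ ih => add (one a.2 a.1 p) ih) l

/-- Test all iterated commutators with `k` letters. -/
noncomputable def allLie (f : Tr → Bool) (k : ℕ) : ℕ → Tr → Bool :=
  Nat.rec (fun _ t => f t)
    (fun _ ih p t => frc t fun t => ih (p + 1) (ad 0 p t) && ih (p + 1) (ad 1 p t)) k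

/-- Test all words of length `p`. -/
noncomputable def allW (p : ℕ) : (Tr → Bool) → Bool :=
  Nat.rec (fun f => f (lf 1)) (fun _ ih f => ih (fun t => f (pre 0 t)) && ih fun t => f (pre 1 t)) p

/-- Pull a functional back along a derivation. -/
noncomputable def pull (m p : ℕ) (d : Fin 2 → Tr) (t : Tr) : Tr :=
  frc t fun t => cyc p (mk (con (Nat.succ m) (d 0) t z) (con (Nat.succ m) (d 1) t z))

/-- The pairing of an element with a functional. -/
noncomputable def pr (p : ℕ) (u t : Tr) : ℤ := root (con p u t z)

/-- A linear combination. -/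
noncomputable def comb {α : Type} (E : List α) (c : α → ℤ) (f : α → Tr) (s : Tr) : Tr :=
  List.rec s (fun e _ ih => lin (c e) (f e) ih) E

end Tr

open Tr

/-- Lists of words in three operators with coded functionals. -/
abbrev EL : Type := List (List (Fin 3) × List (ℕ × ℤ))

/-- The functional in degree sixteen. -/
def lam0 : List (ℕ × ℤ) :=
  [(5463, 72), (2907, -1974), (3415, -1326), (2903, -5952), (2871, -5466), (2795, -132), (2779, 
    -5406), (2775, -9282), (2747, -720), (2735, 5844), (2719, 31392), (2671, 33882), (2655, 79674), 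
    (2487, 1080), (2479, 29076), (2463, 49840), (2427, 819), (2423, 14733), (2415, 76959), (2367, 
    -150366), (1655, -151868), (1647, -196056), (1487, 563202), (1467, -41733), (1343, 2204610), (1275, 
    618873), (1263, 997851), (1247, 3296357), (943, 77346), (927, -33880476), (831, -67768260), (887, 
    -381972), (863, -33585756), (639, -126304782), (763, 1996518), (479, -109537479), (255, 
    -1005935328), (2743, -7470), (1719, 2688), (1711, 32394), (1495, 26214), (1439, 1331136), (1271, 
    288789), (1463, -5901), (879, -519660), (759, 1676205), (1399, -160115), (1455, 591843), (751, 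
    2791944), (1391, 363669), (735, -25406067), (447, -204953598), (2399, 120979), (1403, -45207), 
    (1215, 8550302), (1375, 1325418), (703, -46124118), (383, -439811160)]

/-- Coordinates on the space `N 1`. -/
def sg1 : EL :=
  [([], [(3, -1)])]

/-- Coordinates on the space `N 2`. -/
def sg2 : EL :=
  [([0], [(7, -1)]),
   ([1], [(15, 1)]),
   ([2], [(3, -1)])]

/-- Coordinates on the space `N 3`. -/
def sg3 : EL :=
  [([0, 0], [(15, -20), (23, -4)]),
   ([0, 1], [(31, 15)]),
   ([0, 2], [(7, -15)]),
   ([1, 1], [(63, -15)]),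
   ([1, 2], [(15, -5), (23, -4)]),
   ([2, 2], [(3, -15)])]

/-- Coordinates on the space `N 4`. -/
def sg4 : EL :=
  [([0, 0, 0], [(31, -88), (47, -32), (87, -4)]),
   ([0, 0, 1], [(63, 1200), (95, 380), (175, -60)]),
   ([0, 0, 2], [(15, -1436), (23, -444), (43, 76)]),
   ([0, 1, 1], [(127, -70)]),
   ([0, 1, 2], [(31, 72), (47, -12), (87, -19)]),
   ([0, 2, 2], [(7, -70)]),
   ([1, 0, 0], [(63, -1248), (95, -412), (175, 68)]),
   ([1, 0, 2], [(31, -90), (47, -20), (87, 15)]),
   ([1, 1, 1], [(255, 70)]),
   ([1, 1, 2], [(63, -118), (95, -32), (175, 8)]),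
   ([1, 2, 2], [(15, 118), (23, 32), (43, -8)]),
   ([2, 0, 0], [(15, 1484), (23, 476), (43, -84)]),
   ([2, 2, 2], [(3, -70)])]

/-- The correction terms in degree ten. -/
def nu0 : Fin 3 → List (ℕ × ℤ)
  | 0 => [(151, -960), (91, 960), (79, 3000), (55, -3000)]
  | 1 => [(83, -960), (77, -2040), (75, -3000), (43, -3000), (39, -960), (23, 3960)]
  | 2 => [(215, -960), (187, 2040), (183, -3000), (175, -3000), (111, -960), (95, 3960)]

/-- The commutator of the two letters. -/
noncomputable def cT : Tr := ad 0 1 (pre 1 (lf 1))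

/-- The values of a derivation that kills all letters but one. -/
noncomputable def dT (i : Fin 2) (t : Tr) (j : Fin 2) : Tr := if j = i then t else z

/-- The letter moved by the derivation number `s`. -/
def yj : Fin 3 → Fin 2
  | 2 => 1
  | _ => 0

/-- The letter in the image of the derivation number `s`. -/
def yk : Fin 3 → Fin 2
  | 1 => 1
  | _ => 0

/-- The three derivations of degree two. -/
noncomputable def yT (s : Fin 3) : Fin 2 → Tr := dT (yj s) (ad (yk s) 2 cT)

/-- The invariant functional. -/
noncomputable def lamT : Tr := cyc 15 (ofL 16 lam0)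

/-- Its pull-backs. -/
noncomputable def LamT (w : List (Fin 3)) : Tr :=
  List.rec lamT (fun s w ih => lin (-1) (pull 2 (13 - 2 * w.length) (yT s) ih) z) w

/-- The orbit of the square of the commutator. -/
noncomputable def nT (w : List (Fin 3)) : Tr :=
  List.rec (cyc 3 (mulT 2 cT cT)) (fun s w ih => frc ih fun u => cyc (5 + 2 * w.length)
    (add (mulT 3 (yT s 0) (c0 u)) (mulT 3 (yT s 1) (c1 u)))) w

/-- Words in three symbols. -/
def W : ℕ → List (List (Fin 3))
  | 0 => [[]]
  | n + 1 => (W n).flatMap fun w => [0 :: w, 1 :: w, 2 :: w]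

/-- Vanishing on the images of the square of the commutator. -/
noncomputable def vanX (m : ℕ) (t : Tr) : Bool :=
  frc t fun t => lieZ m (con 3 (c0 (nT [])) t z) && lieZ m (con 3 (c1 (nT [])) t z)

/-- The cyclic functional of a list. -/
noncomputable def sgT (p : ℕ) (l : List (ℕ × ℤ)) : Tr := cyc p (ofL (p + 1) l)

/-- The defect of the bilinear form. -/
noncomputable def theta (p : ℕ) (d : ℤ) (E : EL) (w : List (Fin 3)) : Tr :=
  comb E (fun e => pr (p + 1) (nT w) (sgT p e.2)) (fun e => LamT e.1)
    (lin (-(d * (p + 1))) (LamT w) z)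

/-- Vanishing in length ten. -/
noncomputable def vanN4 (t : Tr) : Bool :=
  frc t fun t => (W 3).all fun w => decide (pr 10 (nT w) t = 0)

/-- Vanishing in length twelve. -/
noncomputable def vanN5 (t : Tr) : Bool := frc t fun t =>
  ((List.finRange 3).all fun s => vanN4 (pull 2 9 (yT s) t)) && vanX 8 t

/-- The defect of invariance under a derivation of degree four. -/
noncomputable def thD (i : Fin 2) (t : Tr) : Tr :=
  comb sg3 (fun e => pr 5 t (con 3 (ch i (nT [])) (sgT 7 e.2) z)) (fun e => LamT e.1)
    (lin 120 (pull 4 11 (dT i t) lamT) z)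

/-- The membership test. -/
noncomputable def memT (p : ℕ) (d : ℤ) (E : EL) : Bool :=
  allW (p + 1) fun v => frc (cyc p v) fun tau => vanX (p - 3)
    (comb E (fun e => pr (p + 1) (nT e.1) tau) (fun e => sgT p e.2) (lin (-(d * (p + 1))) tau z))

/-- The test of invariance under derivations of higher degree. -/
noncomputable def chkD (m : ℕ) (w : List (Fin 3)) (nu : Tr) (i : Fin 2) : Bool :=
  lieZ m (add (ad i m nu) (lin (-1) (con 3 (ch i (nT [])) (LamT w) z)
    (con (15 - m) (ch i (nT w)) lamT z)))

end Pool.Agent.Lib.MP_f9c34c_al
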