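import Pool.Agent.Lib.MP_f9c34c_al.Alg
import Pool.Agent.Lib.MP_f9c34c_al.Trie

-- part Pool.Agent.Lib.MP_f9c34c_al.Sem
section

open Submodule Finset

attribute [local instance 100] LieRing.ofAssociativeRing

namespace Pool.Agent.Lib.MP_f9c34c_al

namespace Tr

/-- The function on words encoded by a tree. -/
def ev : Tr → List (Fin 2) → ℤ
  | z, _ => 0
  | lf c, _ => c
  | nd l _, [] => ev l []
  | nd l r, a :: w => if a = 0 then ev l w else ev r w

@[simp] lemma ev_z (w : List (Fin 2)) : ev z w = 0 := by simp [ev]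
@[simp] lemma ev_lf (c : ℤ) (w : List (Fin 2)) : ev (lf c) w = c := by simp [ev]
@[simp] lemma ev_nil (l r : Tr) : ev (nd l r) [] = ev l [] := by simp [ev]
@[simp] lemma ev_cons (l r : Tr) (a : Fin 2) (w : List (Fin 2)) :
    ev (nd l r) (a :: w) = if a = 0 then ev l w else ev r w := by simp [ev]

@[simp] lemma frc_eq {α : Type} (t : Tr) (k : Tr → α) : frc t k = k t := by cases t <;> rfl

@[simp] lemma ev_mk (l r : Tr) (w : List (Fin 2)) : ev (mk l r) w = ev (nd l r) w := by
  cases l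
  · cases r
    · cases w <;> simp [show mk z z = z from rfl]
    all_goals rfl
  all_goals exact congrArg (ev · w) (frc_eq _ _)

@[simp] lemma ev_mkl (c : ℤ) (w : List (Fin 2)) : ev (mkl c) w = c := by
  rcases c with (_ | c) | (_ | c)
  · exact ev_z w
  all_goals exact ev_lf _ w

lemma ch_zero (t : Tr) : ch 0 t = c0 t := rfl
lemma ch_one (t : Tr) : ch 1 t = c1 t := rfl

@[simp] lemma ev_c0 (t : Tr) (w : List (Fin 2)) : ev (c0 t) w = ev t (0 :: w) := by
  cases t <;> simp [c0]

@[simp] lemma ev_c1 (t : Tr) (w : List (Fin 2)) : ev (c1 t) w = ev t (1 :: w) := by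
  cases t <;> simp [c1]

@[simp] lemma ev_ch (a : Fin 2) (t : Tr) (w : List (Fin 2)) : ev (ch a t) w = ev t (a :: w) := by
  fin_cases a
  exacts [ev_c0 t w, ev_c1 t w]

lemma ev_zero (t : Tr) : ev t [0] = ev t [] := by cases t <;> simp

lemma root_eq (t : Tr) : root t = ev t [] := by
  induction t with
  | z => rfl
  | lf a => rfl
  | nd l r ih _ => exact ih.trans (ev_nil l r).symm

@[simp] lemma ev_addc (x : ℤ) (s : Tr) : ∀ w, ev (addc x s) w = ev s w + x := by
  induction s with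
  | z => intro w; simp [addc]
  | lf a => intro w; simp [addc]
  | nd l r h1 h2 =>
    intro w
    change ev (mk (addc x l) (addc x r)) w = _
    cases w <;> simp [h1, h2, ite_add]

@[simp] lemma ev_add (t : Tr) : ∀ s w, ev (add t s) w = ev t w + ev s w := by
  induction t with
  | z => intro s w; simp [add]
  | lf a => intro s w; simp [add, add_comm]
  | nd l r h1 h2 =>
    intro s w
    cases s with
    | z => simp [add]
    | lf c =>
      change ev (mk (add l (lf c)) (add r (lf c))) w = _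
      cases w <;> simp [h1, h2, ite_add]
    | nd l' r' =>
      change ev (mk (add l l') (add r r')) w = _
      cases w <;> simp [h1, h2, ite_add_ite]

@[simp] lemma ev_lin (c : ℤ) (t : Tr) : ∀ s w, ev (lin c t s) w = ev s w + c * ev t w := by
  induction t with
  | z => intro s w; simp [lin]
  | lf a => intro s w; simp [lin]
  | nd l r h1 h2 =>
    intro s w
    change ev (frc s fun s => mk (lin c l (c0 s)) (lin c r (c1 s))) w = _
    rcases w with _ | ⟨a, w⟩
    · simp [h1, ev_zero]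
    · fin_cases a <;> simp [h1, h2]

lemma isZ_eq {t : Tr} (h : isZ t = true) : t = z := by
  cases t
  · rfl
  all_goals exact absurd h Bool.false_ne_true

@[simp] lemma ev_pre (a b : Fin 2) (t : Tr) (w : List (Fin 2)) :
    ev (pre a t) (b :: w) = if b = a then ev t w else 0 := by
  fin_cases a <;> fin_cases b <;> simp [pre]

lemma ev_app (a b : Fin 2) : ∀ (w : List (Fin 2)) (t : Tr),
    ev (app a w.length t) (w ++ [b]) = if b = a then ev t w else 0
  | [], t => ev_pre a b t []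
  | x :: w, z => by simp [app]
  | x :: w, lf c => by
    change ev (mk (app a w.length (lf c)) (app a w.length (lf c))) _ = _
    simp [ev_app a b w]
  | x :: w, nd l r => by
    change ev (mk (app a w.length l) (app a w.length r)) _ = _
    simp only [ev_mk, List.cons_append, ev_cons, ev_app a b w]
    split_ifs <;> rfl

lemma ev_zip (l r : Tr) (a b : Fin 2) (w : List (Fin 2)) :
    ev (zip l r) (a :: b :: w) = ev (nd l r) (b :: a :: w) := by
  cases l <;> cases r <;> fin_cases a <;> fin_cases b <;> simp [zip, c0, c1]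

lemma ev_rot (a : Fin 2) : ∀ (w : List (Fin 2)) (t : Tr),
    ev (rot w.length t) (a :: w) = ev t (w ++ [a])
  | [], t => rfl
  | x :: w, z => by simp [rot]
  | x :: w, lf c => by simp [rot]
  | x :: w, nd l r => by
    change ev (zip (rot w.length l) (rot w.length r)) _ = _
    simp [ev_zip, ev_rot a w]

/-- The functional on words of length `p` encoded by a tree. -/
noncomputable def F (p : ℕ) (t : Tr) : T (Fin 2) →ₗ[ℚ] ℚ :=
  MP_f9c34c_al.lin fun w => if w.length = p then (ev t w : ℚ) else 0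

/-- The combination of the words of length `p` with given coefficients. -/
noncomputable def Vf : ℕ → (List (Fin 2) → ℤ) → T (Fin 2)
  | 0, f => (f [] : ℚ) • 1
  | p + 1, f => ∑ a, gx a * Vf p fun w => f (a :: w)

/-- The homogeneous element encoded by a tree. -/
noncomputable def V (p : ℕ) (t : Tr) : T (Fin 2) := Vf p (ev t)

lemma F_wd (p : ℕ) (t : Tr) (w : List (Fin 2)) :
    F p t (wd w) = if w.length = p then (ev t w : ℚ) else 0 := lin_wd _ _

lemma F_hom0 {p q : ℕ} (t : Tr) (h : q ≠ p) {s : T (Fin 2)} (hs : s ∈ Hom _ q) : F p t s = 0 :=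
  Hom_ext (g := 0) (fun w hw => by simp [F_wd, hw, h]) hs

@[simp] lemma F_z (p : ℕ) : F p z = 0 := T_ext fun w => by simp [F_wd]

lemma F_lin (p : ℕ) (c : ℤ) (t s : Tr) : F p (lin c t s) = F p s + (c : ℚ) • F p t :=
  T_ext fun w => by simp only [F_wd, LinearMap.add_apply, LinearMap.smul_apply]; split_ifs <;> simp

lemma F_add (p : ℕ) (t s : Tr) : F p (add t s) = F p t + F p s :=
  T_ext fun w => by simp only [F_wd, LinearMap.add_apply]; split_ifs <;> simp

lemma F_comb {α : Type} (p : ℕ) (E : List α) (c : α → ℤ) (f : α → Tr) (s : Tr) :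
    F p (comb E c f s) = F p s + (E.map fun e => (c e : ℚ) • F p (f e)).sum := by
  induction E with
  | nil => simp [comb]
  | cons e E ih =>
    change F p (lin (c e) (f e) (comb E c f s)) = _
    rw [F_lin, ih, List.map_cons, List.sum_cons]; abel

lemma F_ch (p : ℕ) (t : Tr) (a : Fin 2) (s : T (Fin 2)) :
    F (p + 1) t (gx a * s) = F p (ch a t) s :=
  T_ext' (f := F (p + 1) t ∘ₗ LinearMap.mulLeft ℚ (gx a)) (fun w => by simp [← wd_cons, F_wd]) s

lemma F_rot (p : ℕ) (t : Tr) (s : T (Fin 2)) : F (p + 1) (rot p t) s = F (p + 1) t (Rot s) := by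
  refine (T_ext' (g := F (p + 1) t ∘ₗ Rot) (fun w => ?_) s).trans (LinearMap.comp_apply _ _ _)
  rw [LinearMap.comp_apply, Rot, lin_wd, F_wd, F_wd, List.length_rotate]
  by_cases h : w.length = p + 1
  · rw [if_pos h, if_pos h]
    obtain ⟨a, u, rfl⟩ := List.exists_cons_of_length_eq_add_one h
    obtain rfl : u.length = p := by simpa using h
    rw [ev_rot, List.rotate_cons_succ, List.rotate_zero]
  · rw [if_neg h, if_neg h]

lemma F_cycA (p : ℕ) : ∀ (k : ℕ) (t u : Tr) (s : T (Fin 2)),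
    F (p + 1) (cycA p k t u) s = F (p + 1) u s + F (p + 1) t (CY k s)
  | 0, t, u, s => by simp [cycA, CY]
  | k + 1, t, u, s => by
    change F (p + 1) (frc t fun t => frc (add t u) (cycA p k (rot p t))) s = _
    rw [frc_eq, frc_eq, F_cycA p k, F_rot, F_add, CY, CY, sum_range_succ']
    simp only [pow_succ', LinearMap.add_apply, LinearMap.sum_apply, map_add, map_sum,
      Module.End.mul_apply, pow_zero, Module.End.one_apply]
    abel

lemma F_cyc (p : ℕ) (t : Tr) (s : T (Fin 2)) :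
    F (p + 1) (cyc p t) s = F (p + 1) t (CY (p + 1) s) := by
  simp [cyc, F_cycA]

end Tr

lemma CY_Hom {X : Type} {p : ℕ} (k : ℕ) {s : T X} (hs : s ∈ Hom X p) : CY k s ∈ Hom X p :=
  Hom_mem (fun w hw => by
    rw [CY_wd]; exact sum_mem fun j _ => wd_mem (by simpa using hw)) hs

namespace Tr

lemma F_tr (p : ℕ) (t : Tr) {s : T (Fin 2)} (hs : s ∈ Cm _) : F (p + 1) (cyc p t) s = 0 := by
  refine tr_of_Rot (T_ext' (f := F (p + 1) (cyc p t) ∘ₗ Rot) fun w => ?_) hs
  rw [LinearMap.comp_apply]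
  by_cases h : w.length = p + 1
  · rw [F_cyc, F_cyc, CY_Rot (wd_mem h)]
  · rw [F_hom0 _ h (wd_mem rfl), F_hom0 _ h (Rot_Hom (wd_mem rfl))]

lemma F_pre (p : ℕ) (a : Fin 2) (t : Tr) (s : T (Fin 2)) :
    F (p + 1) (pre a t) s = F p t (dL a s) :=
  T_ext' (g := F p t ∘ₗ dL a) (fun w => by
    rcases w with _ | ⟨b, w⟩
    · simp [F_wd, dL]
    · rw [LinearMap.comp_apply, F_wd, wd_cons, dL_gx]
      split_ifs <;> simp_all [F_wd]) s

lemma F_app (p : ℕ) (a : Fin 2) (t : Tr) (s : T (Fin 2)) :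
    F (p + 1) (app a p t) s = F p t (dR a s) :=
  T_ext' (g := F p t ∘ₗ dR a) (fun w => by
    rcases List.eq_nil_or_concat' w with rfl | ⟨u, b, rfl⟩
    · simp [F_wd, dR]
    · rw [LinearMap.comp_apply, F_wd, wd_append, ← gx, dR_gx]
      by_cases h : u.length = p
      · subst h
        rw [ev_app]
        split_ifs <;> simp_all [F_wd]
      · split_ifs <;> simp_all [F_wd]) s

lemma F_ad (p : ℕ) (a : Fin 2) (t : Tr) (s : T (Fin 2)) :
    F (p + 1) (ad a p t) s = F p t (dL a s - dR a s) := by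
  simp [ad, F_lin, F_pre, F_app, sub_eq_add_neg]

lemma Vf_congr : ∀ (p : ℕ) {f g : List (Fin 2) → ℤ}, (∀ w, w.length = p → f w = g w) →
    Vf p f = Vf p g
  | 0, f, g, h => by rw [Vf, Vf, h [] rfl]
  | p + 1, f, g, h => sum_congr rfl fun a _ => by
    rw [Vf_congr p fun w hw => h (a :: w) (by simp [hw])]

lemma Vf_lin (c : ℤ) : ∀ (p : ℕ) (f g : List (Fin 2) → ℤ),
    Vf p (fun w => f w + c * g w) = Vf p f + (c : ℚ) • Vf p g
  | 0, f, g => by simp [Vf, add_smul, mul_smul]
  | p + 1, f, g => by simp [Vf, Vf_lin c p, mul_add, sum_add_distrib]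

lemma Vf_zero : ∀ p : ℕ, Vf p (fun _ => 0) = 0
  | 0 => by simp [Vf]
  | p + 1 => by simp [Vf, Vf_zero p]

lemma Vf_snoc : ∀ (p : ℕ) (f : List (Fin 2) → ℤ),
    Vf (p + 1) f = ∑ a, Vf p (fun w => f (w ++ [a])) * gx a
  | 0, f => by simp [Vf]
  | p + 1, f => by
    rw [Vf, sum_congr rfl fun a _ => congrArg (gx a * ·) (Vf_snoc p fun w => f (a :: w))]
    simp only [mul_sum]
    rw [sum_comm]
    simp only [Vf, sum_mul, mul_assoc, List.cons_append]

lemma Vf_mem : ∀ (p : ℕ) (f : List (Fin 2) → ℤ), Vf p f ∈ Hom (Fin 2) p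
  | 0, _ => smul_mem _ _ (wd_mem (w := []) rfl)
  | p + 1, _ => sum_mem fun a _ => by
    simpa [add_comm] using Hom_mul (gx_mem a) (Vf_mem p _)

lemma V_mem (p : ℕ) (t : Tr) : V p t ∈ Hom (Fin 2) p := Vf_mem p _

@[simp] lemma V_z (p : ℕ) : V p z = 0 := (Vf_congr p fun w _ => ev_z w).trans (Vf_zero p)

lemma V_lin (p : ℕ) (c : ℤ) (t s : Tr) : V p (lin c t s) = V p s + (c : ℚ) • V p t :=
  (Vf_congr p fun w _ => ev_lin c t s w).trans (Vf_lin c p _ _)

lemma V_add (p : ℕ) (t s : Tr) : V p (add t s) = V p t + V p s :=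
  (Vf_congr p fun w _ => by simp).trans ((Vf_lin 1 p (ev t) (ev s)).trans (by simp [V]))

lemma V_succ (p : ℕ) (t : Tr) : V (p + 1) t = ∑ a, gx a * V p (ch a t) := by
  rw [V, Vf]
  exact sum_congr rfl fun a _ => congrArg (gx a * ·) (Vf_congr p fun w _ => (ev_ch a t w).symm)

lemma V_succ' (p : ℕ) (t : Tr) : V (p + 1) t = gx 0 * V p (c0 t) + gx 1 * V p (c1 t) := by
  rw [V_succ, Fin.sum_univ_two]; rfl

lemma V_mk (p : ℕ) (l r : Tr) : V (p + 1) (mk l r) = gx 0 * V p l + gx 1 * V p r := by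
  rw [V_succ', V, V, Vf_congr p (g := ev l) (by simp), Vf_congr p (f := ev (c1 _)) (g := ev r)
    (by simp)]
  rfl

lemma V_pre (p : ℕ) (a : Fin 2) (t : Tr) : V (p + 1) (pre a t) = gx a * V p t := by
  fin_cases a <;> simp [pre, V_mk]

lemma V_app (p : ℕ) (a : Fin 2) (t : Tr) : V (p + 1) (app a p t) = V p t * gx a := by
  rw [V, Vf_snoc, sum_eq_single a _ (by simp), V]
  · rw [Vf_congr p (g := ev t) (by rintro w rfl; simp [ev_app])]
  · intro b _ h
    rw [Vf_congr p (g := fun _ => 0) (by rintro w rfl; simp [ev_app, h]), Vf_zero, zero_mul]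

lemma V_ad (p : ℕ) (a : Fin 2) (t : Tr) : V (p + 1) (ad a p t) = ⁅gx a, V p t⁆ := by
  simp [ad, V_lin, V_pre, V_app, Ring.lie_def, sub_eq_add_neg]

lemma V_zero (t : Tr) : V 0 t = (root t : ℚ) • 1 := by rw [root_eq]; rfl

lemma V_mul (p : ℕ) (t : Tr) : ∀ (q : ℕ) (u : Tr), V (p + q) (mulT q u t) = V q u * V p t
  | 0, u => by simp [mulT, V_lin, V_zero]
  | q + 1, z => by simp [mulT]
  | q + 1, lf b => by
    change V (p + q + 1) (mk (mulT q (lf b) t) (mulT q (lf b) t)) = _
    rw [V_mk, V_mul p t q, V_succ', add_mul, mul_assoc, mul_assoc]; rfl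
  | q + 1, nd l r => by
    change V (p + q + 1) (mk (mulT q l t) (mulT q r t)) = _
    rw [V_mk, V_mul p t q, V_mul p t q, V_succ', add_mul, mul_assoc, mul_assoc]; rfl

lemma V_rot (p : ℕ) (t : Tr) : Rot (V (p + 1) (rot p t)) = V (p + 1) t := by
  rw [V, V, Vf_snoc p (ev t), Vf, map_sum]
  refine sum_congr rfl fun a _ => ?_
  rw [Rot_mul, Vf_congr p (g := fun w => ev t (w ++ [a])) (by rintro w rfl; exact ev_rot a w t)]

lemma V_cycA (p : ℕ) : ∀ (k : ℕ) (t u : Tr),
    V (p + 1) (cycA p k t u) - V (p + 1) u - (k : ℚ) • V (p + 1) t ∈ Cm (Fin 2)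
  | 0, t, u => by simp [cycA]
  | k + 1, t, u => by
    change V (p + 1) (frc t fun t => frc (add t u) (cycA p k (rot p t))) - _ - _ ∈ _
    have := sub_mem (V_cycA p k (rot p t) (add t u))
      (smul_mem _ (k : ℚ) (Rot_cm (V (p + 1) (rot p t))))
    rw [V_rot, V_add] at this
    rw [frc_eq, frc_eq]
    convert this using 1
    push_cast
    module

lemma V_cyc (p : ℕ) (t : Tr) :
    V (p + 1) (cyc p t) - ((p : ℚ) + 1) • V (p + 1) t ∈ Cm (Fin 2) := by
  simpa [cyc] using V_cycA p (p + 1) t z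

lemma V_cyc_rot (p : ℕ) (t : Tr) : Rot (V (p + 1) (cyc p t)) = V (p + 1) (cyc p t) := by
  refine (congrArg _ (Vf_congr _ fun w hw => ?_)).trans (V_rot p (cyc p t))
  have := (F_rot p (cyc p t) (wd w)).trans
    (by rw [F_cyc, CY_Rot (wd_mem hw), ← F_cyc] : _ = F (p + 1) (cyc p t) (wd w))
  simp only [F_wd, hw, if_true, Int.cast_inj] at this
  exact this.symm

lemma F_con (p : ℕ) (y : T (Fin 2)) : ∀ (q : ℕ) (u t s : Tr),
    F p (con q u t s) y = F p s y + F (p + q) t (V q u * y)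
  | 0, u, t, s => by simp [con, F_lin, V_zero]
  | q + 1, z, t, s => by simp [con]
  | q + 1, lf b, t, s => by
    change F p (frc t fun t => frc (con q (lf b) (c0 t) s) (con q (lf b) (c1 t))) y = _
    rw [frc_eq, frc_eq, F_con p y q, F_con p y q, V_succ', add_mul, map_add, mul_assoc, mul_assoc,
      ← add_assoc p, F_ch, F_ch, add_assoc]
    rfl
  | q + 1, nd l r, z, s => by simp [con]
  | q + 1, nd l r, lf b, s => by
    change F p (frc (con q l (lf b) s) (con q r (lf b))) y = _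
    rw [frc_eq, F_con p y q, F_con p y q, V_succ', add_mul, map_add, mul_assoc, mul_assoc,
      ← add_assoc p, F_ch, F_ch, add_assoc]
    rfl
  | q + 1, nd l r, nd l' r', s => by
    change F p (frc (con q l l' s) (con q r r')) y = _
    rw [frc_eq, F_con p y q, F_con p y q, V_succ', add_mul, map_add, mul_assoc, mul_assoc,
      ← add_assoc p, F_ch, F_ch, add_assoc]
    rfl

lemma pr_eq (p : ℕ) (u t : Tr) : (pr p u t : ℚ) = F p t (V p u) := by
  have := F_con 0 1 p u t z
  rw [← wd_nil, F_wd, wd_nil] at this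
  simpa [pr, root_eq] using this

lemma lieZ_sound : ∀ (p : ℕ) (t : Tr), lieZ p t = true → len gx p ≤ LinearMap.ker (F (p + 1) t)
  | 0, t, h => len_le0 fun a => by
    have h : isZ (c0 t) = true ∧ isZ (c1 t) = true := by simpa [lieZ] using h
    rw [LinearMap.mem_ker, ← mul_one (gx a), F_ch]
    fin_cases a
    · simp [ch_zero, isZ_eq h.1]
    · simp [ch_one, isZ_eq h.2]
  | p + 1, z, _ => by simp
  | p + 1, lf _, h => absurd h Bool.false_ne_true
  | p + 1, nd l r, h => len_le fun a y hy => by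
    change frc (rot (p + 1) (nd l r)) (fun u => lieZ p (lin (-1) (c0 u) l) &&
      lieZ p (lin (-1) (c1 u) r)) = true at h
    rw [frc_eq, Bool.and_eq_true] at h
    rw [LinearMap.mem_ker, Ring.lie_def, map_sub, ← Rot_mul, ← F_rot, F_ch, F_ch]
    fin_cases a
    · simpa [F_lin, sub_eq_add_neg, ch, c0] using lieZ_sound p _ h.1 hy
    · simpa [F_lin, sub_eq_add_neg, ch, c1] using lieZ_sound p _ h.2 hy

/-- The elements whose `k`-fold commutators with letters lie in `S`. -/
noncomputable def AD (S : Submodule ℚ (T (Fin 2))) : ℕ → Submodule ℚ (T (Fin 2))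
  | 0 => S
  | k + 1 => ⨅ a, (AD S k).comap (LieModule.toEnd ℚ (T (Fin 2)) _ (gx a))

lemma allLie_sound (f : Tr → Bool) (S : Submodule ℚ (T (Fin 2))) : ∀ (k p : ℕ) (t : Tr),
    allLie f k p t = true → (∀ u, f u = true → V (p + k) u ∈ S) → V p t ∈ AD S k
  | 0, p, t, h, hS => hS t h
  | k + 1, p, t, h, hS => by
    change frc t (fun t => allLie f k (p + 1) (ad 0 p t) && allLie f k (p + 1) (ad 1 p t)) = true
      at h
    rw [frc_eq, Bool.and_eq_true] at h
    rw [show p + (k + 1) = p + 1 + k by ring] at hS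
    refine (mem_iInf _).2 fun a => ?_
    rw [mem_comap, LieModule.toEnd_apply_apply, ← V_ad]
    fin_cases a
    exacts [allLie_sound f S k _ _ h.1 hS, allLie_sound f S k _ _ h.2 hS]

lemma len_AD (S : Submodule ℚ (T (Fin 2))) : ∀ k n : ℕ, len gx n ≤ AD S k → len gx (n + k) ≤ S
  | 0, _, h => h
  | k + 1, n, h => by
    rw [show n + (k + 1) = n + 1 + k by ring]
    exact len_AD S k _ (len_le fun a y hy => (mem_iInf _).1 (h hy) a)

lemma allW_sound : ∀ (p : ℕ) (f : Tr → Bool), allW p f = true → ∀ s ∈ Hom (Fin 2) p,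
    (∀ t, f t = true → F p t s = 0) → s = 0
  | 0, f, h, s, hs, H => by
    have := Hom_ext (f := LinearMap.id) (g := (F 0 (lf 1)).smulRight 1) (fun w hw => by
      rw [LinearMap.smulRight_apply, F_wd, List.length_eq_zero_iff.1 hw]
      simp [wd_nil]) hs
    simpa [H _ h] using this
  | p + 1, f, h, s, hs, H => by
    change (allW p (fun t => f (pre 0 t)) && allW p fun t => f (pre 1 t)) = true at h
    rw [Bool.and_eq_true] at h
    have e := Hom_ext (f := LinearMap.id) (g := ∑ a, LinearMap.mulLeft ℚ (gx a) ∘ₗ dL a)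
      (fun w hw => by
        obtain ⟨a, u, rfl⟩ := List.exists_cons_of_length_eq_add_one hw
        fin_cases a <;> simp [wd_cons, dL_gx]) hs
    have m : ∀ a, dL a s ∈ Hom (Fin 2) p := fun a => Hom_mem (fun w hw => by
      obtain ⟨b, u, rfl⟩ := List.exists_cons_of_length_eq_add_one hw
      rw [wd_cons, dL_gx]
      split_ifs
      exacts [wd_mem (by simpa using hw), zero_mem _]) hs
    simpa [allW_sound p _ h.1 _ (m 0) fun t ht => (F_pre p 0 t s).symm.trans (H _ ht),
      allW_sound p _ h.2 _ (m 1) fun t ht => (F_pre p 1 t s).symm.trans (H _ ht)] using e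

lemma pull_sound (m p : ℕ) (d : Fin 2 → Tr) (t : Tr) {D : Module.End ℚ (T (Fin 2))} (hD : IsDer D)
    (hd : ∀ i, D (gx i) = V (m + 1) (d i)) (ht : ∀ s ∈ Cm _, F (p + (m + 1)) t s = 0) :
    F (p + 1) (pull m p d t) = F (p + (m + 1)) t ∘ₗ D := T_ext fun w => by
  rw [LinearMap.comp_apply]
  by_cases h : w.length = p + 1
  · have := ht _ (hD.cyc (wd_mem h))
    rw [map_sub, sub_eq_zero] at this
    rw [this, pull, frc_eq, F_cyc]
    refine Hom_ext (g := F (p + (m + 1)) t ∘ₗ fst fun x => D (gx x)) (fun w hw => ?_)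
      (CY_Hom _ (wd_mem h))
    obtain ⟨a, u, rfl⟩ := List.exists_cons_of_length_eq_add_one hw
    rw [LinearMap.comp_apply, wd_cons, fst_mul, F_ch, hd, ← zero_add (F _ t _),
      ← show F p z (wd u) = 0 by simp, ← F_con]
    fin_cases a <;> simp [F_wd]
  · rw [F_hom0 _ h (wd_mem rfl), F_hom0 _ (by omega)
      (hD.hom (m := m) (fun x => hd x ▸ V_mem _ _) (wd_mem rfl))]

end Tr

end Pool.Agent.Lib.MP_f9c34c_al
end
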